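import Pool.Agent.H98.FT.SixB

/-!
# FT-SixC

(6c): `k(y,x)` is an inner mapping which fixes `x` and `y`.
-/

set_option autoImplicit false

namespace ALoop

open Equiv

variable {Q : Type*} {G : Subgroup (Perm Q)} {L : Q → Perm Q} {J : Perm Q} {e : Q}

namespace AL

/-- (6c): `k(y,x)` is an inner mapping which fixes `x` and `y` -/
theorem six_k (h : AL G L J e) {x y : Q} (hx : Iv J e x) (hy : Iv J e y) :
    kk L J y x ∈ Inn G e ∧ kk L J y x x = x ∧ kk L J y x y = y := by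
  have hrt : rt L J x = J * L x * J := by unfold rt; rw [hx.1]
  have hR : ∀ q, (J * L x * J) q = L q x := h.six_Rx hx.1
  have hRe : (J * L x * J)⁻¹ e = x := by
    rw [Perm.inv_eq_iff_eq, hR, h.LxLx hx.1]
  have hRx : (J * L x * J)⁻¹ x = e := by
    rw [Perm.inv_eq_iff_eq, hR, h.Le1, Perm.one_apply]
  have hRyx : (J * L x * J)⁻¹ (L y x) = y := by
    rw [Perm.inv_eq_iff_eq, hR]
  have hRy : (J * L x * J)⁻¹ y = J ((L x)⁻¹ y) := by
    rw [Perm.inv_eq_iff_eq, hR]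
    have h3 := h.aaip x ((L x)⁻¹ y)
    rw [apply_inv', hx.1, hy.1] at h3
    exact h3
  have hkx : kk L J y x x = x := by
    unfold kk
    rw [hrt]
    show L y ((J * L x * J)⁻¹ (L y ((J * L x * J)⁻¹ x))) = x
    rw [hRx, h.Le, hRy]
    exact h.six_p hx hy
  have hky : kk L J y x y = y := by
    unfold kk
    rw [hrt]
    show L y ((J * L x * J)⁻¹ (L y ((J * L x * J)⁻¹ y))) = y
    rw [hRy, h.six_p hx hy, hRx, h.Le]
  refine ⟨⟨?_, ?_⟩, hkx, hky⟩
  · unfold kk
    rw [hrt]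
    have h1 : L y * (J * L x * J)⁻¹ ∈ G :=
      G.mul_mem (h.memL y) (G.inv_mem (h.JG _ (h.memL x)))
    exact G.mul_mem h1 h1
  · show kk L J y x e = e
    unfold kk
    rw [hrt]
    show L y ((J * L x * J)⁻¹ (L y ((J * L x * J)⁻¹ e))) = e
    rw [hRe, hRyx, h.LxLx hy.1]

end AL

end ALoop
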