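import Pool.Agent.H98.FT.Def

/-!
Bas: the basic facts about the elements `c` of odd order inverted by `z_x`.
-/

set_option autoImplicit false

namespace ALoop

open Equiv

variable {Q : Type*} {G : Subgroup (Perm Q)} {L : Q → Perm Q} {J : Perm Q} {e : Q}

namespace AL

/-- B4: `R_x = z_x L_x = L_x z_x`, `z_x` in `Inn`, `z_x^2 = 1`, `J L_x J = R_x` -/
theorem b_zz (h : AL G L J e) {x : Q} (hx : Iv J e x) :
    rt L J x = zz L J x * L x ∧ rt L J x = L x * zz L J x ∧ zz L J x ∈ Inn G e ∧
    zz L J x * zz L J x = 1 ∧ J * L x * J = rt L J x ∧ rt L J x = J * L x * J ∧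
    zz L J x * J = J * zz L J x := by
  obtain ⟨hJx, hxe⟩ := hx
  have h0 : rt L J x = J * L x * J := by
    unfold rt
    rw [hJx]
  have h1 : J * L x * J = (D L J x * J) * L x := h.zt_eq hJx
  have h2 : (D L J x * J) * L x = L x * (D L J x * J) := h.Lx_z hJx hxe
  have h3 : D L J x * J = J * D L J x := h.Dx_J hJx
  have hz := h.zx_mem hJx hxe
  refine ⟨?_, ?_, ⟨h.Z_mem hz, h.zx_e hJx hxe⟩, h.Z_sq hz, h0.symm, h0, ?_⟩
  · rw [h0, h1]
    rfl
  · rw [h0, h1, h2]
    rfl
  · show D L J x * J * J = J * (D L J x * J)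
    calc D L J x * J * J = (J * D L J x) * J := by rw [h3]
      _ = J * (D L J x * J) := by group

/-- B1 (key_comm): `c'` -/
theorem b_pr (h : AL G L J e) {x : Q} {c : Perm Q} (o : KX G L J e x c) :
    pr L x c ∈ G ∧ pr L x c * D L J x = D L J x * pr L x c ∧ J * pr L x c * J = (pr L x c)⁻¹ ∧
    pr L x c * c = c * pr L x c := by
  obtain ⟨n, hn, hcn⟩ := o.odd
  refine ⟨G.mul_mem (G.mul_mem (G.inv_mem (h.memL x)) o.mem.1) (h.memL x), ?_⟩
  exact h.key_comm o.Iv.1 o.mem hn hcn o.inv

private theorem bas_Dinv {x : Q} {c : Perm Q} (hDD : D L J x * D L J x = 1)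
    (hinv : D L J x * c * D L J x = c⁻¹) : D L J x * c⁻¹ = c * D L J x := by
  have h1 : D L J x * c⁻¹ * D L J x = c := by
    rw [← hinv]
    calc D L J x * (D L J x * c * D L J x) * D L J x =
          (D L J x * D L J x) * c * (D L J x * D L J x) := by group
      _ = c := by rw [hDD]; group
  calc D L J x * c⁻¹ = (D L J x * c⁻¹ * D L J x) * (D L J x)⁻¹ := by group
    _ = c * (D L J x)⁻¹ := by rw [h1]
    _ = c * D L J x := by rw [inv_eq_of_mul_eq_one_left hDD]

/-- `z_x c z_x = c⁻¹` -/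
private theorem bas_zc (h : AL G L J e) {x : Q} {c : Perm Q} (o : KX G L J e x c) :
    zz L J x * c * zz L J x = c⁻¹ := by
  have hcJ : c * J = J * c := h.comJ c o.mem.1 o.mem.2
  have h3 : D L J x * J = J * D L J x := h.Dx_J o.Iv.1
  show (D L J x * J) * c * (D L J x * J) = c⁻¹
  calc (D L J x * J) * c * (D L J x * J) = D L J x * (J * c) * (D L J x * J) := by group
    _ = D L J x * (c * J) * (J * D L J x) := by rw [hcJ, h3]
    _ = D L J x * c * (J * J) * D L J x := by group
    _ = D L J x * c * D L J x := by rw [h.JJ1, mul_one]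
    _ = c⁻¹ := o.inv

/-- B2: `D (c x) = c^2 D x`, `L (c x) = L x (c' c^-1)`, `R (c x) = R x (c' c)^-1`, `J (c x) = c x` -/
theorem b_cx (h : AL G L J e) {x : Q} {c : Perm Q} (o : KX G L J e x c) :
    Iv J e (c x) ∧ D L J (c x) = c * c * D L J x ∧ L (c x) = L x * (pr L x c * c⁻¹) ∧
    rt L J (c x) = rt L J x * (pr L x c * c)⁻¹ := by
  have hcJ : c * J = J * c := h.comJ c o.mem.1 o.mem.2
  have hce : c e = e := o.mem.2
  have hJcx : J (c x) = c x := by
    have h1 := congrArg (fun p : Perm Q => p x) hcJ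
    simp only [Perm.mul_apply] at h1
    rw [← h1, o.Iv.1]
  have hLc : L (c x) = c * L x * c⁻¹ := (h.equi c o.mem.1 hce x).symm
  obtain ⟨z1, z2, z3, z4, z5, z6, z7⟩ := h.b_zz o.Iv
  obtain ⟨p1, p2, p3, p4⟩ := h.b_pr o
  refine ⟨⟨hJcx, ?_⟩, ?_, ?_, ?_⟩
  · intro h1
    apply o.Iv.2
    apply c.injective
    rw [h1, hce]
  · rw [← h.D_conj o.mem.1]
    calc c * D L J x * c⁻¹ = c * (D L J x * c⁻¹) := by group
      _ = c * (c * D L J x) := by rw [bas_Dinv (h.D_sq x) o.inv]
      _ = c * c * D L J x := by group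
  · rw [hLc]
    unfold pr
    group
  · have hzc := bas_zc h o
    have hzi : (zz L J x)⁻¹ = zz L J x := inv_eq_of_mul_eq_one_left z4
    have h1 : rt L J (c x) = c * rt L J x * c⁻¹ := by
      unfold rt
      rw [hJcx, o.Iv.1, hLc]
      have hcJ' : J * c⁻¹ = c⁻¹ * J := by
        calc J * c⁻¹ = c⁻¹ * (c * J) * c⁻¹ := by group
          _ = c⁻¹ * (J * c) * c⁻¹ := by rw [hcJ]
          _ = c⁻¹ * J := by group
      calc J * (c * L x * c⁻¹) * J = (J * c) * L x * (c⁻¹ * J) := by group
        _ = (c * J) * L x * (J * c⁻¹) := by rw [hcJ, hcJ']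
        _ = c * (J * L x * J) * c⁻¹ := by group
    have h2 : (rt L J x)⁻¹ * c * rt L J x = (pr L x c)⁻¹ := by
      rw [z1]
      calc (zz L J x * L x)⁻¹ * c * (zz L J x * L x) =
            (L x)⁻¹ * ((zz L J x)⁻¹ * c * zz L J x) * L x := by group
        _ = (L x)⁻¹ * (zz L J x * c * zz L J x) * L x := by rw [hzi]
        _ = (L x)⁻¹ * c⁻¹ * L x := by rw [hzc]
        _ = (pr L x c)⁻¹ := by unfold pr; group
    rw [h1]
    calc c * rt L J x * c⁻¹ = rt L J x * ((rt L J x)⁻¹ * c * rt L J x) * c⁻¹ := by group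
      _ = rt L J x * (pr L x c)⁻¹ * c⁻¹ := by rw [h2]
      _ = rt L J x * (c * pr L x c)⁻¹ := by group
      _ = rt L J x * (pr L x c * c)⁻¹ := by rw [p4]

/-- B3: the point `s = x \ (c x)`: `D s = c'^2 J`, `c s = s`, `z_x s = J s`, `L x s = c x`,
`L s x = c^-1 x`, `L s (c x) = x` -/
theorem b_sp (h : AL G L J e) {x : Q} {c : Perm Q} (o : KX G L J e x c) :
    D L J (sp L x c) = pr L x c * pr L x c * J ∧ c (sp L x c) = sp L x c ∧
    zz L J x (sp L x c) = J (sp L x c) ∧ L x (sp L x c) = c x ∧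
    L (sp L x c) x = c⁻¹ x ∧ L (sp L x c) (c x) = x := by
  have hcJ : c * J = J * c := h.comJ c o.mem.1 o.mem.2
  obtain ⟨z1, z2, z3, z4, z5, z6, z7⟩ := h.b_zz o.Iv
  obtain ⟨p1, p2, p3, p4⟩ := h.b_pr o
  obtain ⟨c1, c2, c3, c4⟩ := h.b_cx o
  have hJJ := h.JJ1
  have hzc := bas_zc h o
  set s := sp L x c with hs
  have hLs : L x s = c x := by
    rw [hs]
    unfold sp
    exact apply_inv' _ _
  have hDs : D L J s = pr L x c * pr L x c * J := by
    have h1 := h.D_conj (G.inv_mem (h.memL x)) (c x)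
    have h2 : (L x)⁻¹ (c x) = s := rfl
    rw [h2, c2] at h1
    rw [← h1]
    unfold pr D
    group
  have hDsc : c * D L J s = D L J s * c := by
    rw [hDs]
    calc c * (pr L x c * pr L x c * J) = (c * pr L x c) * pr L x c * J := by group
      _ = (pr L x c * c) * pr L x c * J := by rw [p4]
      _ = pr L x c * (c * pr L x c) * J := by group
      _ = pr L x c * (pr L x c * c) * J := by rw [p4]
      _ = pr L x c * pr L x c * (c * J) := by group
      _ = pr L x c * pr L x c * (J * c) := by rw [hcJ]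
      _ = pr L x c * pr L x c * J * c := by group
  have hcs : c s = s := (h.D_cent o.mem.1 s).1 hDsc
  -- `z` inverts `c'`
  have hzp : zz L J x * pr L x c * zz L J x = (pr L x c)⁻¹ := by
    have h3 : D L J x * J = J * D L J x := h.Dx_J o.Iv.1
    have hpi : (pr L x c)⁻¹ * D L J x = D L J x * (pr L x c)⁻¹ := by
      calc (pr L x c)⁻¹ * D L J x = (pr L x c)⁻¹ * (D L J x * pr L x c) * (pr L x c)⁻¹ := by group
        _ = (pr L x c)⁻¹ * (pr L x c * D L J x) * (pr L x c)⁻¹ := by rw [p2]
        _ = D L J x * (pr L x c)⁻¹ := by group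
    show (D L J x * J) * pr L x c * (D L J x * J) = (pr L x c)⁻¹
    calc (D L J x * J) * pr L x c * (D L J x * J) = (D L J x * J) * pr L x c * (J * D L J x) := by
          rw [h3]
      _ = D L J x * (J * pr L x c * J) * D L J x := by group
      _ = D L J x * ((pr L x c)⁻¹ * D L J x) := by rw [p3]; group
      _ = D L J x * (D L J x * (pr L x c)⁻¹) := by rw [hpi]
      _ = (D L J x * D L J x) * (pr L x c)⁻¹ := by group
      _ = (pr L x c)⁻¹ := by rw [h.D_sq, one_mul]
  have hzi : (zz L J x)⁻¹ = zz L J x := inv_eq_of_mul_eq_one_left z4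
  have hzs : zz L J x s = J s := by
    apply h.D_inj
    rw [← h.D_conj z3.1, ← h.D_J, hDs, hzi]
    have l1 : zz L J x * (pr L x c * pr L x c * J) * zz L J x =
        (pr L x c)⁻¹ * (pr L x c)⁻¹ * J := by
      calc zz L J x * (pr L x c * pr L x c * J) * zz L J x =
            zz L J x * pr L x c * 1 * pr L x c * (J * zz L J x) := by group
        _ = zz L J x * pr L x c * (zz L J x * zz L J x) * pr L x c * (zz L J x * J) := by
            rw [z4, z7]
        _ = (zz L J x * pr L x c * zz L J x) * (zz L J x * pr L x c * zz L J x) * J := by group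
        _ = _ := by rw [hzp]
    have l2 : J * (pr L x c * pr L x c * J) * J = (pr L x c)⁻¹ * (pr L x c)⁻¹ * J := by
      calc J * (pr L x c * pr L x c * J) * J = J * pr L x c * 1 * pr L x c * J * J := by group
        _ = J * pr L x c * (J * J) * pr L x c * J * J := by rw [hJJ]
        _ = (J * pr L x c * J) * (J * pr L x c * J) * J := by group
        _ = _ := by rw [p3]
    rw [l1, l2]
  have hzx : zz L J x x = x := h.zx_x o.Iv.1 o.Iv.2
  have hzL : zz L J x * L x = L x * zz L J x := by rw [← z1, z2]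
  have hJci : J * c⁻¹ = c⁻¹ * J := by
    calc J * c⁻¹ = c⁻¹ * (c * J) * c⁻¹ := by group
      _ = c⁻¹ * (J * c) * c⁻¹ := by rw [hcJ]
      _ = c⁻¹ * J := by group
  have hLsx : L s x = c⁻¹ x := by
    have h1 : L s x = J (L (J x) (J s)) := by
      have := h.R_apply s x
      simp only [Perm.mul_apply] at this
      exact this.symm
    rw [h1, o.Iv.1, ← hzs]
    have h2 : L x (zz L J x s) = zz L J x (L x s) := by
      have := congrArg (fun p : Perm Q => p s) hzL
      simp only [Perm.mul_apply] at this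
      exact this.symm
    rw [h2, hLs]
    have h3 : zz L J x (c x) = c⁻¹ x := by
      have h4 : zz L J x * c = c⁻¹ * zz L J x := by
        calc zz L J x * c = (zz L J x * c * zz L J x) * (zz L J x)⁻¹ := by group
          _ = c⁻¹ * zz L J x := by rw [hzc, hzi]
      have := congrArg (fun p : Perm Q => p x) h4
      simp only [Perm.mul_apply] at this
      rw [this, hzx]
    rw [h3]
    have := congrArg (fun p : Perm Q => p x) hJci
    simp only [Perm.mul_apply] at this
    rw [this, o.Iv.1]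
  refine ⟨hDs, hcs, hzs, hLs, hLsx, ?_⟩
  have h1 := h.comL o.mem.1 o.mem.2 hcs
  have h2 := congrArg (fun p : Perm Q => p x) h1
  simp only [Perm.mul_apply] at h2
  rw [← h2, hLsx]
  exact apply_inv' c x

end AL

end ALoop
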