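import Mathlib

/-!
Pure group theory of (2), (3). Author: helper57.
-/

set_option autoImplicit false
namespace ALoop

/-- (3): `w` of odd order, commuting with `D w D` and `D' w D'`, `D w D' w^-1 = w^-1 D' w D`,
`w D' w^-1 D` of odd order: `D' = D` -/
theorem alg_three {M : Type*} [Group M] {w D D' : M} (hD : D * D = 1) (hD' : D' * D' = 1)
    {n : ℕ} (hn : Odd n) (hw : w ^ n = 1) (h1 : w * (D * w * D) = (D * w * D) * w)
    (h2 : w * (D' * w * D') = (D' * w * D') * w)
    (h3 : D * w * D' * w⁻¹ = w⁻¹ * D' * w * D) {m : ℕ} (hm : Odd m)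
    (h4 : (w * D' * w⁻¹ * D) ^ m = 1) : D' = D := by
  have hDi : D⁻¹ = D := inv_eq_of_mul_eq_one_left hD
  have hDi' : D'⁻¹ = D' := inv_eq_of_mul_eq_one_left hD'
  have hpow : ∀ k : ℕ, D * w ^ k * D = (D * w * D) ^ k := by
    intro k
    have e1 : D * w * D = D * w * D⁻¹ := by rw [hDi]
    rw [e1, conj_pow, hDi]
  -- D' commutes with w v D
  have a1 : Commute D' (w * D * w) := by
    show D' * (w * D * w) = (w * D * w) * D'
    calc D' * (w * D * w) = w * (w⁻¹ * D' * w * D) * w := by group
      _ = w * (D * w * D' * w⁻¹) * w := by rw [h3]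
      _ = (w * D * w) * D' := by group
  have a2 : Commute w (D * w * D) := h1
  have a3 : w * D * w = (w * (D * w * D)) * D := by
    calc w * D * w = w * D * w * (D * D) := by rw [hD, mul_one]
      _ = (w * (D * w * D)) * D := by group
  have a4 : Commute (w * (D * w * D)) D := by
    show (w * (D * w * D)) * D = D * (w * (D * w * D))
    calc (w * (D * w * D)) * D = ((D * w * D) * w) * D := by rw [h1]
      _ = D * (w * (D * w * D)) := by group
  have a5 : (w * D * w) ^ n = D := by
    rw [a3, a4.mul_pow, a2.mul_pow, hw, one_mul, ← hpow, hw, mul_one, hD, one_mul]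
    obtain ⟨k, hk⟩ := hn
    rw [hk, pow_succ, pow_mul, pow_two, hD, one_pow, one_mul]
  have a6 : Commute D' D := by
    have := a1.pow_right n
    rwa [a5] at this
  have a7 : Commute D' (w * (D * w * D)) := by
    have h5 : w * (D * w * D) = (w * D * w) * D := by group
    rw [h5]
    exact a1.mul_right a6
  set t := D' * D with ht
  have htt : t * t = 1 := by
    calc t * t = D' * (D * D') * D := by rw [ht]; group
      _ = D' * (D' * D) * D := by rw [a6.eq]
      _ = (D' * D') * (D * D) := by group
      _ = 1 := by rw [hD, hD', one_mul]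
  have hti : t⁻¹ = t := inv_eq_of_mul_eq_one_left htt
  have htD : D * D' = t := by rw [ht, a6.eq]
  have htc : Commute t D := by
    rw [ht]
    exact a6.mul_left (Commute.refl D)
  set v := D * w * D with hv
  have hv' : D' * w * D' = t * v * t := by
    calc D' * w * D' = D' * (D * D) * w * (D * D) * D' := by rw [hD]; group
      _ = (D' * D) * (D * w * D) * (D * D') := by group
      _ = t * v * t := by rw [htD, ← ht]
  have hvt : D' * v * D' = t * w * t := by
    calc D' * v * D' = (D' * D) * w * (D * D') := by rw [hv]; group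
      _ = t * w * t := by rw [htD, ← ht]
  have cwv : Commute w v := h1
  have cwtv : Commute w (t * v * t) := by
    rw [← hv']; exact h2
  have a8 : (t * v * t) * (t * w * t) = w * v := by
    rw [← hv', ← hvt]
    calc D' * w * D' * (D' * v * D') = D' * w * (D' * D') * v * D' := by group
      _ = (D' * (w * v)) * D' := by rw [hD']; group
      _ = ((w * v) * D') * D' := by rw [a7.eq]
      _ = w * v := by rw [mul_assoc, hD', mul_one]
  have a9 : t * w * t = (t * v * t)⁻¹ * (w * v) := by
    rw [← a8]; group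
  have cwtw : Commute w (t * w * t) := by
    rw [a9]
    exact cwtv.inv_right.mul_right ((Commute.refl w).mul_right cwv)
  have conjt : ∀ {a b : M}, Commute a b → Commute (t * a * t) (t * b * t) := by
    intro a b hab
    show (t * a * t) * (t * b * t) = (t * b * t) * (t * a * t)
    calc (t * a * t) * (t * b * t) = t * a * (t * t) * b * t := by group
      _ = t * (a * b) * t := by rw [htt]; group
      _ = t * (b * a) * t := by rw [hab.eq]
      _ = t * b * (t * t) * a * t := by rw [htt]; group
      _ = (t * b * t) * (t * a * t) := by group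
  have tt : ∀ a : M, t * (t * a * t) * t = a := by
    intro a
    calc t * (t * a * t) * t = (t * t) * a * (t * t) := by group
      _ = a := by rw [htt, one_mul, mul_one]
  have cvtw : Commute v (t * w * t) := by
    have := (conjt cwtv).symm
    rwa [tt] at this
  have ctwtv : Commute (t * w * t) (t * v * t) := conjt cwv
  have cvtv : Commute v (t * v * t) := by
    have e1 : D * (t * w * t) * D = t * v * t := by
      calc D * (t * w * t) * D = (D * t) * w * (t * D) := by group
        _ = (t * D) * w * (D * t) := by rw [htc.eq]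
        _ = t * v * t := by rw [hv]; group
    show v * (t * v * t) = (t * v * t) * v
    rw [← e1]
    calc v * (D * (t * w * t) * D) = D * w * (D * D) * (t * w * t) * D := by rw [hv]; group
      _ = D * (w * (t * w * t)) * D := by rw [hD]; group
      _ = D * ((t * w * t) * w) * D := by rw [cwtw.eq]
      _ = D * (t * w * t) * (D * D) * w * D := by rw [hD]; group
      _ = (D * (t * w * t) * D) * v := by rw [hv]; group
  have hvn : v ^ n = 1 := by
    rw [hv, ← hpow, hw, mul_one, hD]
  have conjn : ∀ {a : M}, a ^ n = 1 → (t * a * t) ^ n = 1 := by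
    intro a ha
    have e1 : t * a * t = t * a * t⁻¹ := by rw [hti]
    rw [e1, conj_pow, ha]
    group
  have mulc : ∀ {a b : M}, Commute a b → a ^ n = 1 → b ^ n = 1 → (a * b) ^ n = 1 := by
    intro a b hab ha hb
    rw [hab.mul_pow, ha, hb, one_mul]
  have invn : ∀ {a : M}, a ^ n = 1 → a⁻¹ ^ n = 1 := by
    intro a ha
    rw [inv_pow, ha, inv_one]
  -- g = (t w t) v⁻¹, r = w (t v t)⁻¹ g
  have b1 : w * D' * w⁻¹ * D = t * ((t * w * t) * v⁻¹) := by
    have e1 : v⁻¹ = D * w⁻¹ * D := by
      rw [hv]
      calc (D * w * D)⁻¹ = D⁻¹ * w⁻¹ * D⁻¹ := by group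
        _ = D * w⁻¹ * D := by rw [hDi]
    rw [e1]
    calc w * D' * w⁻¹ * D = w * (D' * (D * D)) * w⁻¹ * D := by rw [hD, mul_one]
      _ = w * (D' * D) * D * w⁻¹ * D := by group
      _ = (t * t) * w * t * D * w⁻¹ * D := by rw [htt, one_mul]
      _ = t * (t * w * t * (D * w⁻¹ * D)) := by group
  set g := (t * w * t) * v⁻¹ with hg
  have b2 : (t * g) * (t * g) = (w * (t * v * t)⁻¹) * g := by
    have e1 : (t * v * t)⁻¹ = t * v⁻¹ * t := by
      calc (t * v * t)⁻¹ = t⁻¹ * v⁻¹ * t⁻¹ := by group
        _ = t * v⁻¹ * t := by rw [hti]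
    rw [e1]
    calc (t * g) * (t * g) = t * ((t * w * t) * v⁻¹) * t * g := by rw [hg]; group
      _ = (t * t) * w * t * v⁻¹ * t * g := by group
      _ = (w * (t * v⁻¹ * t)) * g := by rw [htt]; group
  obtain ⟨j, hj⟩ := hm
  have b3 : ((w * (t * v * t)⁻¹) * g) ^ j * (t * g) = 1 := by
    rw [← b2, ← pow_two, ← pow_mul, ← pow_succ, ← hj, ← b1]
    exact h4
  have b4 : t = ((((w * (t * v * t)⁻¹) * g) ^ j))⁻¹ * g⁻¹ := by
    calc t = (((w * (t * v * t)⁻¹) * g) ^ j)⁻¹ *
        (((w * (t * v * t)⁻¹) * g) ^ j * (t * g)) * g⁻¹ := by group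
      _ = ((((w * (t * v * t)⁻¹) * g) ^ j))⁻¹ * g⁻¹ := by rw [b3, mul_one]
  have cg : ∀ {a : M}, Commute a (t * w * t) → Commute a v → Commute a g := by
    intro a ha hb
    rw [hg]
    exact ha.mul_right hb.inv_right
  have gn : g ^ n = 1 := by
    rw [hg]
    exact mulc cvtw.symm.inv_right (conjn hw) (invn hvn)
  have cwg : Commute w g := cg cwtw cwv
  have ctvg : Commute (t * v * t) g := cg ctwtv.symm cvtv.symm
  have crg : Commute ((w * (t * v * t)⁻¹) * g) g :=
    (cwg.mul_left ctvg.inv_left).mul_left (Commute.refl g)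
  have rn : ((w * (t * v * t)⁻¹) * g) ^ n = 1 := by
    apply mulc (cwg.mul_left ctvg.inv_left) _ gn
    exact mulc cwtv.inv_right hw (invn (conjn hvn))
  have tn : t ^ n = 1 := by
    rw [b4]
    apply mulc
    · exact (crg.pow_left j).inv_left.inv_right
    · apply invn
      rw [← pow_mul, mul_comm, pow_mul, rn, one_pow]
    · exact invn gn
  obtain ⟨k, hk⟩ := hn
  rw [hk, pow_succ, pow_mul, pow_two, htt, one_pow, one_mul] at tn
  have e1 : D' = t * D := by rw [ht, mul_assoc, hD, mul_one]
  rw [e1, tn, one_mul]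

end ALoop
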