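import Pool.Agent.H98.FT.Def
import Pool.Agent.H4.Loop.Struct

/-!
The final contradiction: an element of `G` which commutes with all `L y`, `y` an involution, fixes
`e`, if the loop is not associative.  `S` is generated by these `L y`; it is normalised by the inner
mappings and by `g`, hence by `G` if `g e ≠ e`; the centraliser `T` of `S` in `G` contains `g`.
The minimal normal subgroup `N₀` of `G` is then contained in `S` and in `T`, so it is abelian.
-/

set_option autoImplicit false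

namespace ALoop

open Equiv

variable {Q : Type*} {G : Subgroup (Perm Q)} {L : Q → Perm Q} {J : Perm Q} {e : Q}

namespace AL

/-- a copy of `norm_all` (H4/SN/Fin.lean) -/
private theorem con_norm_all (h : AL G L J e) {S : Subgroup (Perm Q)}
    (hSn : ∀ g ∈ G, g e = e → ∀ s ∈ S, g * s * g⁻¹ ∈ S)
    {g : Perm Q} (hg : g ∈ G) (hge : g e ≠ e) (hn : ∀ s, s ∈ S ↔ g * s * g⁻¹ ∈ S) : Nm G S := by
  have hiff : ∀ k ∈ G, k e = e → ∀ s, s ∈ S ↔ k⁻¹ * s * k ∈ S := by
    intro k hk hke s
    constructor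
    · intro hs
      have := hSn k⁻¹ (G.inv_mem hk) (by rw [Perm.inv_eq_iff_eq]; exact hke.symm) s hs
      simpa using this
    · intro hs
      have := hSn k hk hke _ hs
      have e1 : k * (k⁻¹ * s * k) * k⁻¹ = s := by group
      rwa [e1] at this
  have hset : ∀ k ∈ G, ∀ s, (L (k e))⁻¹ * s * L (k e) ∈ S ↔ k⁻¹ * s * k ∈ S := by
    intro k hk s
    have hv := h.fix_part hk
    rw [hiff _ hv.1 hv.2 ((L (k e))⁻¹ * s * L (k e))]
    have e1 : ((L (k e))⁻¹ * k)⁻¹ * ((L (k e))⁻¹ * s * L (k e)) * ((L (k e))⁻¹ * k) =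
        k⁻¹ * s * k := by group
    rw [e1]
  have key := h.prim_map (fun a => {s : Perm Q | (L a)⁻¹ * s * L a ∈ S}) (by
    intro k hk a b hab
    simp only [Set.ext_iff, Set.mem_ofPred_eq] at hab ⊢
    intro s
    have h1 : ∀ c : Q, (L (k c))⁻¹ * s * L (k c) ∈ S ↔ (L c)⁻¹ * (k⁻¹ * s * k) * L c ∈ S := by
      intro c
      have h2 := hset (k * L c) (G.mul_mem hk (h.memL c)) s
      rw [Perm.mul_apply, h.Le] at h2
      rw [h2]
      have e1 : (k * L c)⁻¹ * s * (k * L c) = (L c)⁻¹ * (k⁻¹ * s * k) * L c := by group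
      rw [e1]
    rw [h1 a, h1 b]
    exact hab _)
  rcases key with hk | hk
  · exfalso
    apply hge
    apply hk
    simp only [Set.ext_iff, Set.mem_ofPred_eq]
    intro s
    rw [hset g hg s, h.Le1]
    have := hn (g⁻¹ * s * g)
    rw [this]
    have e1 : g * (g⁻¹ * s * g) * g⁻¹ = s := by group
    rw [e1]; simp
  · intro k hkG s hs
    have h1 := hk (k⁻¹ e) e
    simp only [Set.ext_iff, Set.mem_ofPred_eq] at h1
    have h2 := (h1 s).2 (by rw [h.Le1]; simpa using hs)
    have h3 := (hset k⁻¹ (G.inv_mem hkG) s).1 h2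
    simpa using h3

/-- a nontrivial normal subgroup `S` of `G` contains `N₀` -/
private theorem con_le {S N₀ : Subgroup (Perm Q)} (hSG : S ≤ G) (hS : Nm G S)
    (hN₀G : N₀ ≤ G) (hN₀ : Nm G N₀) (hmin : ∀ M ≤ N₀, Nm N₀ M → M = ⊥ ∨ M = N₀)
    (hcent : ∀ g ∈ G, (∀ n ∈ N₀, g * n = n * g) → g = 1) {a : Perm Q} (ha : a ∈ S)
    (ha1 : a ≠ 1) : N₀ ≤ S := by
  have h1 : Nm N₀ (N₀ ⊓ S) := fun n hn m hm' =>
    ⟨N₀.mul_mem (N₀.mul_mem hn hm'.1) (N₀.inv_mem hn), hS n (hN₀G hn) m hm'.2⟩
  rcases hmin _ inf_le_left h1 with h2 | h2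
  · exfalso
    apply ha1
    apply hcent a (hSG ha)
    intro n hn
    refine (comm_of_inf (fun g hg m hm' => hN₀ g (hSG hg) m hm')
      (fun g hg m hm' => hS g (hN₀G hg) m hm') ?_ hn ha).symm
    intro y hy1 hy2
    have : y ∈ N₀ ⊓ S := ⟨hy1, hy2⟩
    rwa [h2, Subgroup.mem_bot] at this
  · rw [← h2]; exact inf_le_right

/-- (9'): an element of `G` which commutes with all `L_y`, `y` an involution, fixes `e` -/
theorem final_con [Finite Q] (h : AL G L J e) (hna : ¬ Assoc L) {x : Q} (hx : Iv J e x)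
    {g : Perm Q} (hg : g ∈ G) (hc : ∀ y, Iv J e y → g * L y = L y * g) : g e = e := by
  by_contra hge
  set gens : Set (Perm Q) := {k | ∃ y, Iv J e y ∧ k = L y} with hgens
  set S : Subgroup (Perm Q) := Subgroup.closure gens with hS
  have hSG : S ≤ G := by
    rw [hS, Subgroup.closure_le]
    rintro k ⟨y, -, rfl⟩
    exact h.memL y
  have hSn : ∀ k ∈ G, k e = e → ∀ s ∈ S, k * s * k⁻¹ ∈ S := by
    intro k hkG hke s hs
    induction hs using Subgroup.closure_induction with
    | mem a ha =>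
      obtain ⟨y, hy, rfl⟩ := ha
      rw [h.equi k hkG hke y]
      refine Subgroup.subset_closure ⟨k y, ⟨?_, ?_⟩, rfl⟩
      · have h1 := congrArg (fun p : Perm Q => p y) (h.comJ k hkG hke)
        simp only [Perm.mul_apply] at h1
        rw [← h1, hy.1]
      · intro h1
        apply hy.2
        apply k.injective
        rw [h1, hke]
    | one => simp
    | mul a b _ _ ha hb =>
      have e1 : k * (a * b) * k⁻¹ = (k * a * k⁻¹) * (k * b * k⁻¹) := by group
      rw [e1]; exact S.mul_mem ha hb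
    | inv a _ ha =>
      have e1 : k * a⁻¹ * k⁻¹ = (k * a * k⁻¹)⁻¹ := by group
      rw [e1]; exact S.inv_mem ha
  have hgS : ∀ s ∈ S, g * s = s * g := by
    intro s hs
    induction hs using Subgroup.closure_induction with
    | mem a ha =>
      obtain ⟨y, hy, rfl⟩ := ha
      exact hc y hy
    | one => simp
    | mul a b _ _ ha hb =>
      exact ((show Commute g a from ha).mul_right (show Commute g b from hb)).eq
    | inv a _ ha => exact (show Commute g a from ha).inv_right.eq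
  have hSN : Nm G S := con_norm_all h hSn hg hge (by
    intro s
    constructor
    · intro hs
      rw [hgS s hs, mul_inv_cancel_right]
      exact hs
    · intro hs
      have h1 := hgS _ hs
      have e1 : g * s * g⁻¹ = s := by
        have h2 : g⁻¹ * (g * (g * s * g⁻¹)) = g⁻¹ * (g * s * g⁻¹ * g) := by rw [h1]
        have e2 : g⁻¹ * (g * (g * s * g⁻¹)) = g * s * g⁻¹ := by group
        have e3 : g⁻¹ * (g * s * g⁻¹ * g) = s := by group
        rw [e2, e3] at h2
        exact h2
      rwa [e1] at hs)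
  set T : Subgroup (Perm Q) := G ⊓ Subgroup.centralizer (S : Set (Perm Q)) with hT
  have hTc : ∀ t ∈ T, ∀ s ∈ S, s * t = t * s := by
    intro t ht s hs
    exact Subgroup.mem_centralizer_iff.1 ht.2 s hs
  have hTN : Nm G T := by
    intro a ha t ht
    refine ⟨G.mul_mem (G.mul_mem ha ht.1) (G.inv_mem ha), ?_⟩
    show a * t * a⁻¹ ∈ Subgroup.centralizer (S : Set (Perm Q))
    rw [Subgroup.mem_centralizer_iff]
    intro s hs
    have h1 : a⁻¹ * s * a ∈ S := by
      have := hSN a⁻¹ (G.inv_mem ha) s hs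
      rwa [inv_inv] at this
    have h2 := hTc t ht _ h1
    calc s * (a * t * a⁻¹) = a * ((a⁻¹ * s * a) * t) * a⁻¹ := by group
      _ = a * (t * (a⁻¹ * s * a)) * a⁻¹ := by rw [h2]
      _ = a * t * a⁻¹ * s := by group
  have hgT : g ∈ T := by
    refine ⟨hg, ?_⟩
    show g ∈ Subgroup.centralizer (S : Set (Perm Q))
    rw [Subgroup.mem_centralizer_iff]
    intro s hs
    exact (hgS s hs).symm
  have hg1 : g ≠ 1 := by
    rintro rfl
    exact hge rfl
  have hLx : L x ∈ S := Subgroup.subset_closure ⟨x, hx, rfl⟩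
  have hLx1 : L x ≠ 1 := by
    intro h1
    apply hx.2
    have h2 := h.Le x
    rw [h1, Perm.one_apply] at h2
    exact h2.symm
  obtain ⟨N₀, hN₀G, hN₀, hN₀ne, hmin, hnab, hcent, -⟩ := structure_thm h hna
  have hle1 : N₀ ≤ S := con_le hSG hSN hN₀G hN₀ hmin hcent hLx hLx1
  have hle2 : N₀ ≤ T := con_le inf_le_left hTN hN₀G hN₀ hmin hcent hgT hg1
  obtain ⟨a, ha, b, hb, hab⟩ := hnab
  exact hab (hTc b (hle2 hb) a (hle1 ha))

end AL

end ALoop
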