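import Pool.Agent.H4.NS.Key
import Pool.Agent.H86.UN.Loc

/-!
Definitions for the theorem: a finite simple automorphic loop of even order with `y y ≠ e` for some
`y` is associative (notes 6641 (0)-(4), 6669 (6)-(10) of helper98).
-/

set_option autoImplicit false

namespace ALoop

open Equiv

variable {Q : Type*}

/-- `c' = L_x^-1 c L_x` -/
def pr (L : Q → Perm Q) (x : Q) (c : Perm Q) : Perm Q := (L x)⁻¹ * c * L x

/-- `c* = L_x c L_x^-1` -/
def sr (L : Q → Perm Q) (x : Q) (c : Perm Q) : Perm Q := L x * c * (L x)⁻¹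

/-- the right translation by `q` -/
def rt (L : Q → Perm Q) (J : Perm Q) (q : Q) : Perm Q := J * L (J q) * J

/-- `z_x = T_x` for an involution `x` -/
def zz (L : Q → Perm Q) (J : Perm Q) (x : Q) : Perm Q := D L J x * J

/-- `k(y,x) = (L_y R_x^-1)^2` -/
def kk (L : Q → Perm Q) (J : Perm Q) (y x : Q) : Perm Q :=
  (L y * (rt L J x)⁻¹) * (L y * (rt L J x)⁻¹)

/-- the point `s = x \ (c x)` -/
def sp (L : Q → Perm Q) (x : Q) (c : Perm Q) : Q := (L x)⁻¹ (c x)

/-- `x` is an involution -/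
def Iv (J : Perm Q) (e : Q) (x : Q) : Prop := J x = x ∧ x ≠ e

/-- `c` is an inner mapping of odd order, inverted by `z_x`, that is by `D x` (`J` commutes with `c`) -/
structure KX (G : Subgroup (Perm Q)) (L : Q → Perm Q) (J : Perm Q) (e : Q) (x : Q) (c : Perm Q) :
    Prop where
  Iv : Iv J e x
  mem : c ∈ Inn G e
  odd : ∃ n : ℕ, Odd n ∧ c ^ n = 1
  inv : D L J x * c * D L J x = c⁻¹

end ALoop
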