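import Pool.Agent.H98.FT.Fou
import Pool.Agent.H98.FT.SixC

/-!
(8). Author: helper57.
-/

set_option autoImplicit false
namespace ALoop
open Equiv
variable {Q : Type*} {G : Subgroup (Perm Q)} {L : Q → Perm Q} {J : Perm Q} {e : Q}
namespace AL

/-- (8): with `w = c' c`, `mu = c' c*^-1`, `k = k(y,x)`, `d_y = L_y^-1 w L_y w^-1`:
`k(y, c x) = (L_y d_y L_y^-1)^-1 (w k w^-1) mu` -/
theorem eight (h : AL G L J e) {x : Q} {c : Perm Q} (o : KX G L J e x c) {y : Q}
    (hy : Iv J e y) :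
    kk L J y (c x) = (L y * ((L y)⁻¹ * (pr L x c * c) * L y * (pr L x c * c)⁻¹) * (L y)⁻¹)⁻¹ *
      ((pr L x c * c) * kk L J y x * (pr L x c * c)⁻¹) * (pr L x c * (sr L x c)⁻¹) := by
  obtain ⟨hpG, hpD, hpJ, hcc⟩ := h.b_pr o
  obtain ⟨-, -, -, hRc⟩ := h.b_cx o
  obtain ⟨hR1, hR2, hzI, hzz, -, -, hzJ⟩ := h.b_zz o.Iv
  have hzi : (zz L J x)⁻¹ = zz L J x := inv_eq_of_mul_eq_one_left hzz
  have hzL : zz L J x * L x = L x * zz L J x := by rw [← hR1, hR2]
  have hJJ := h.JJ1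
  have hDx : J * D L J x * J = D L J x := by
    have h1 : D L J x * J * J = J * (D L J x * J) := hzJ
    rw [mul_assoc, hJJ, mul_one] at h1
    rw [mul_assoc]
    exact h1.symm
  have hcJ := h.comJ c o.mem.1 o.mem.2
  have hzc : zz L J x * c * zz L J x = c⁻¹ := by
    rw [← o.inv]
    unfold zz
    calc D L J x * J * c * (D L J x * J) = D L J x * (J * c) * (D L J x * J) := by group
      _ = D L J x * (c * J) * (D L J x * J) := by rw [hcJ]
      _ = D L J x * c * (J * D L J x * J) := by group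
      _ = D L J x * c * D L J x := by rw [hDx]
  have hzs : zz L J x * sr L x c * zz L J x = (sr L x c)⁻¹ := by
    unfold sr
    calc zz L J x * (L x * c * (L x)⁻¹) * zz L J x
        = (zz L J x * L x) * c * ((zz L J x)⁻¹ * L x)⁻¹ := by group
      _ = (L x * zz L J x) * c * (L x * zz L J x)⁻¹ := by rw [hzi, hzL]
      _ = L x * (zz L J x * c * (zz L J x)⁻¹) * (L x)⁻¹ := by group
      _ = (L x * c * (L x)⁻¹)⁻¹ := by rw [hzi, hzc]; group
  have key : rt L J x * (pr L x c * c) * (rt L J x)⁻¹ = c⁻¹ * (sr L x c)⁻¹ := by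
    rw [hR1]
    calc zz L J x * L x * (pr L x c * c) * (zz L J x * L x)⁻¹
        = zz L J x * (L x * pr L x c * (L x)⁻¹) * (L x * c * (L x)⁻¹) * (zz L J x)⁻¹ := by group
      _ = zz L J x * c * sr L x c * (zz L J x)⁻¹ := by
          have e1 : L x * pr L x c * (L x)⁻¹ = c := by unfold pr; group
          rw [e1]; rfl
      _ = (zz L J x * c * zz L J x) * (zz L J x * sr L x c * zz L J x) := by
          rw [hzi]
          calc zz L J x * c * sr L x c * zz L J x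
              = zz L J x * c * 1 * sr L x c * zz L J x := by group
            _ = (zz L J x * c * zz L J x) * (zz L J x * sr L x c * zz L J x) := by
                rw [← hzz]; group
      _ = c⁻¹ * (sr L x c)⁻¹ := by rw [hzc, hzs]
  have key2 : (pr L x c * c) * (rt L J x)⁻¹ = (rt L J x)⁻¹ * (c⁻¹ * (sr L x c)⁻¹) := by
    rw [← key]; group
  have hwp : (pr L x c * c)⁻¹ * pr L x c = c⁻¹ := by group
  unfold kk
  rw [hRc]
  calc L y * (rt L J x * (pr L x c * c)⁻¹)⁻¹ * (L y * (rt L J x * (pr L x c * c)⁻¹)⁻¹)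
      = L y * (pr L x c * c) * (rt L J x)⁻¹ * L y * ((pr L x c * c) * (rt L J x)⁻¹) := by group
    _ = L y * (pr L x c * c) * (rt L J x)⁻¹ * L y * ((rt L J x)⁻¹ * (c⁻¹ * (sr L x c)⁻¹)) := by
        rw [key2]
    _ = L y * (pr L x c * c) * (L y)⁻¹ * (L y * (rt L J x)⁻¹ * (L y * (rt L J x)⁻¹)) *
        (((pr L x c * c)⁻¹ * pr L x c) * (sr L x c)⁻¹) := by rw [hwp]; group
    _ = (L y * ((L y)⁻¹ * (pr L x c * c) * L y * (pr L x c * c)⁻¹) * (L y)⁻¹)⁻¹ *
      ((pr L x c * c) * (L y * (rt L J x)⁻¹ * (L y * (rt L J x)⁻¹)) * (pr L x c * c)⁻¹) *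
        (pr L x c * (sr L x c)⁻¹) := by group

/-- (8'): `w k w^-1 mu` fixes `y` -/
theorem eight' (h : AL G L J e) {x : Q} {c : Perm Q} (o : KX G L J e x c) {y : Q}
    (hy : Iv J e y) :
    ((pr L x c * c) * kk L J y x * (pr L x c * c)⁻¹ * (pr L x c * (sr L x c)⁻¹)) y = y := by
  obtain ⟨hcx, -, -, -⟩ := h.b_cx o
  obtain ⟨hdI, -, -, -⟩ := h.four_d o y
  obtain ⟨-, -, hk⟩ := h.six_k hcx hy
  have h8 := h.eight o hy
  set d := (L y)⁻¹ * (pr L x c * c) * L y * (pr L x c * c)⁻¹ with hd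
  have h1 : (pr L x c * c) * kk L J y x * (pr L x c * c)⁻¹ * (pr L x c * (sr L x c)⁻¹) =
      (L y * d * (L y)⁻¹) * kk L J y (c x) := by
    rw [h8]; group
  rw [h1, Perm.mul_apply, hk, Perm.mul_apply, Perm.mul_apply]
  have h2 : (L y)⁻¹ y = e := by
    rw [Perm.inv_eq_iff_eq, h.Le]
  have h3 : d e = e := hdI.2
  rw [h2, h3, h.Le]

end AL
end ALoop
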