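import Pool.Agent.H98.FT.Def
import Pool.Agent.H81.LO.Odd

/-!
Existence of a nontrivial element of some `K_x` (from `exists_odd` of H81/LO/Odd).
-/

set_option autoImplicit false

namespace ALoop

open Equiv

variable {Q : Type*} {G : Subgroup (Perm Q)} {L : Q → Perm Q} {J : Perm Q} {e : Q}

namespace AL

/-- existence of a nontrivial element of some `K_x` -/
theorem exists_KX [Finite Q] (h : AL G L J e) (hcardQ : 2 ∣ Nat.card Q) :
    ∃ (x : Q) (c : Perm Q), c ≠ 1 ∧ KX G L J e x c := by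
  obtain ⟨x, hxe, hJx⟩ := h.exists_inv_pt hcardQ
  obtain ⟨b, hb, hb1, hodd, hinv⟩ := h.exists_odd hcardQ hJx hxe
  refine ⟨x, b, hb1, ⟨⟨hJx, hxe⟩, hb, ⟨orderOf b, hodd, pow_orderOf_eq_one b⟩, ?_⟩⟩
  have hbJ : b * J = J * b := h.comJ b hb.1 hb.2
  have hDJ : D L J x * J = J * D L J x := h.Dx_J hJx
  have hJJ := h.JJ1
  rw [← hinv]
  calc D L J x * b * D L J x = D L J x * b * (J * J) * D L J x := by rw [hJJ, mul_one]
    _ = D L J x * (b * J) * (J * D L J x) := by group
    _ = D L J x * (J * b) * (D L J x * J) := by rw [hbJ, hDJ]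
    _ = D L J x * J * b * (D L J x * J) := by group

end AL

end ALoop
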