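import Pool.Agent.H98.FT.Kon

/-!
(4): the elements `d_q`. Author: helper57.
-/

set_option autoImplicit false
namespace ALoop
open Equiv
variable {Q : Type*} {G : Subgroup (Perm Q)} {L : Q → Perm Q} {J : Perm Q} {e : Q}
namespace AL

private theorem rt_memG (h : AL G L J e) (s : Q) : rt L J s ∈ G := h.JG _ (h.memL _)

private theorem rt_app (h : AL G L J e) (s q : Q) : rt L J s q = L q s := by
  show J (L (J s) (J q)) = L q s
  rw [h.aaip, h.JJ, h.JJ]

private theorem rt_conj (h : AL G L J e) {g : Perm Q} (hg : g ∈ Inn G e) (s : Q) :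
    rt L J (g s) = g * rt L J s * g⁻¹ := by
  have hc := h.comJ g hg.1 hg.2
  have hc' : J * g⁻¹ = g⁻¹ * J := by
    calc J * g⁻¹ = g⁻¹ * (g * J) * g⁻¹ := by group
      _ = g⁻¹ * (J * g) * g⁻¹ := by rw [hc]
      _ = g⁻¹ * J := by group
  have h1 : J (g s) = g (J s) := by
    have h2 := congrArg (fun f : Perm Q => f s) hc
    exact h2.symm
  unfold rt
  rw [h1, ← h.equi g hg.1 hg.2]
  calc J * (g * L (J s) * g⁻¹) * J = (J * g) * L (J s) * (g⁻¹ * J) := by group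
    _ = (g * J) * L (J s) * (J * g⁻¹) := by rw [hc, hc']
    _ = g * (J * L (J s) * J) * g⁻¹ := by group

/-- (4): `d_q = L_q^-1 R_s L_q R_s^-1` -/
theorem four_d (h : AL G L J e) {x : Q} {c : Perm Q} (o : KX G L J e x c) (q : Q) :
    (L q)⁻¹ * (pr L x c * c) * L q * (pr L x c * c)⁻¹ ∈ Inn G e ∧
    ((L q)⁻¹ * (pr L x c * c) * L q * (pr L x c * c)⁻¹) (sp L x c) = sp L x c ∧
    ((L q)⁻¹ * (pr L x c * c) * L q * (pr L x c * c)⁻¹) * (pr L x c * c) =
      (pr L x c * c) * ((L q)⁻¹ * (pr L x c * c) * L q * (pr L x c * c)⁻¹) ∧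
    ∃ n : ℕ, Odd n ∧ ((L q)⁻¹ * (pr L x c * c) * L q * (pr L x c * c)⁻¹) ^ n = 1 := by
  obtain ⟨n, hn, hcn⟩ := o.odd
  obtain ⟨hL, hR⟩ := h.k_one o
  obtain ⟨hpG, hpD, hpJ, hcc⟩ := h.b_pr o
  obtain ⟨hDs, hcs, hzs, -, -, -⟩ := h.b_sp o
  have hJJ := h.JJ1
  have hcG : c ∈ G := o.mem.1
  have hpn : (pr L x c) ^ n = 1 := by
    have h1 : pr L x c = (L x)⁻¹ * c * (L x)⁻¹⁻¹ := by unfold pr; rw [inv_inv]
    rw [h1, conj_pow, hcn]
    group
  set w := pr L x c * c with hw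
  set b := pr L x c * pr L x c with hb
  have hwG : w ∈ G := G.mul_mem hpG hcG
  have hwn : w ^ n = 1 := by
    have h1 : Commute (pr L x c) c := hcc
    rw [hw, h1.mul_pow, hpn, hcn, one_mul]
  have hwb : w * b = b * w := by
    have c1 : Commute (pr L x c) c := hcc
    have c2 : Commute (pr L x c * c) (pr L x c) := (Commute.refl _).mul_left c1.symm
    exact c2.mul_right c2
  -- J w_p J = b⁻¹ w_p
  have key : ∀ p, J * ((L p)⁻¹ * w * L p) * J = b⁻¹ * ((L p)⁻¹ * w * L p) ∧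
      ((L p)⁻¹ * w * L p) * b = b * ((L p)⁻¹ * w * L p) := by
    intro p
    have e1 : L p * b * (L p)⁻¹ = w * D L J p * w⁻¹ * D L J p := by
      have h1 : D L J (L p (sp L x c)) = w * D L J p * w⁻¹ := by
        rw [← h.rt_app, ← h.D_conj (h.rt_memG _), hR]
      have h2 : D L J (L p (sp L x c)) = L p * b * J * (L p)⁻¹ := by
        rw [← h.D_conj (h.memL p), hDs]
        group
      calc L p * b * (L p)⁻¹
          = (L p * b * J * (L p)⁻¹) * (L p * J⁻¹ * (L p)⁻¹) := by group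
        _ = (w * D L J p * w⁻¹) * (L p * J * (L p)⁻¹) := by rw [← h2, h1, h.Jinv]
        _ = w * D L J p * w⁻¹ * D L J p := rfl
    have hD : D L J p = L p * J * (L p)⁻¹ := rfl
    set v := (L p)⁻¹ * w * L p with hv
    have e2 : b = v * (J * v⁻¹ * J) := by
      calc b = (L p)⁻¹ * (L p * b * (L p)⁻¹) * L p := by group
        _ = (L p)⁻¹ * (w * D L J p * w⁻¹ * D L J p) * L p := by rw [e1]
        _ = v * (J * v⁻¹ * J) := by rw [hD, hv]; group
    have e3 : J * v * J = b⁻¹ * v := by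
      calc J * v * J = (J * v⁻¹ * J⁻¹)⁻¹ * (J * J) := by rw [hJJ]; nth_rewrite 2 [h.Jinv.symm]; group
        _ = (J * v⁻¹ * J)⁻¹ := by rw [hJJ, mul_one, h.Jinv]
        _ = (v * (J * v⁻¹ * J))⁻¹ * v := by group
        _ = b⁻¹ * v := by rw [← e2]
    have h1 := h.one_w o p
    rw [← hw] at h1
    have e4 : v * (J * v * J) = (J * v * J) * v := by
      calc v * (J * v * J) = (L p)⁻¹ * (w * (D L J p * w * D L J p)) * L p := by
            rw [hD, hv]; group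
        _ = (L p)⁻¹ * ((D L J p * w * D L J p) * w) * L p := by rw [h1]
        _ = (J * v * J) * v := by rw [hD, hv]; group
    refine ⟨e3, ?_⟩
    rw [e3] at e4
    have e5 : v * b⁻¹ = b⁻¹ * v := by
      have h2 : v * b⁻¹ * v = b⁻¹ * v * v := by rw [mul_assoc, e4]
      exact mul_right_cancel h2
    calc v * b = b * (b⁻¹ * v) * b := by group
      _ = b * (v * b⁻¹) * b := by rw [e5]
      _ = b * v := by group
  obtain ⟨k1, k2⟩ := key q
  obtain ⟨k3, -⟩ := key e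
  have hLe1 : L e = 1 := h.Le1
  rw [hLe1] at k3
  have k3' : J * w * J = b⁻¹ * w := by
    have e1 : (1 : Perm Q)⁻¹ * w * 1 = w := by group
    rwa [e1] at k3
  set v := (L q)⁻¹ * w * L q with hv
  have hdb : (v * w⁻¹) * b = b * (v * w⁻¹) := by
    have e1 : w⁻¹ * b = b * w⁻¹ := by
      calc w⁻¹ * b = w⁻¹ * (b * w) * w⁻¹ := by group
        _ = w⁻¹ * (w * b) * w⁻¹ := by rw [hwb]
        _ = b * w⁻¹ := by group
    rw [mul_assoc, e1, ← mul_assoc, k2, mul_assoc]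
  have hdJ : J * (v * w⁻¹) * J = v * w⁻¹ := by
    calc J * (v * w⁻¹) * J = J * v * (J * J) * w⁻¹ * J := by rw [hJJ]; group
      _ = (J * v * J) * (J⁻¹ * w * J⁻¹)⁻¹ := by group
      _ = (b⁻¹ * v) * (b⁻¹ * w)⁻¹ := by rw [h.Jinv, k1, k3']
      _ = b⁻¹ * ((v * w⁻¹) * b) := by group
      _ = v * w⁻¹ := by rw [hdb]; group
  have hdJ' : (v * w⁻¹) * J = J * (v * w⁻¹) := by
    calc (v * w⁻¹) * J = (J * J) * (v * w⁻¹) * J := by rw [hJJ, one_mul]
      _ = J * (J * (v * w⁻¹) * J) := by group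
      _ = J * (v * w⁻¹) := by rw [hdJ]
  have hdG : v * w⁻¹ ∈ G := by
    rw [hv]
    exact G.mul_mem (G.mul_mem (G.mul_mem (G.inv_mem (h.memL q)) hwG) (h.memL q)) (G.inv_mem hwG)
  have hde : (v * w⁻¹) e = e := by
    rw [← h.D_cent hdG, h.D_e]
    exact hdJ'
  have hds : (v * w⁻¹) (sp L x c) = sp L x c := by
    rw [← h.D_cent hdG, hDs, ← mul_assoc, hdb, mul_assoc, hdJ', ← mul_assoc]
  have hdI : v * w⁻¹ ∈ Inn G e := ⟨hdG, hde⟩
  have hdw : (v * w⁻¹) * w = w * (v * w⁻¹) := by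
    have h1 := h.rt_conj hdI (sp L x c)
    rw [hds, hR] at h1
    calc (v * w⁻¹) * w = ((v * w⁻¹) * w * (v * w⁻¹)⁻¹) * (v * w⁻¹) := by group
      _ = w * (v * w⁻¹) := by rw [← h1]
  refine ⟨hdI, hds, hdw, n, hn, ?_⟩
  have h2 : v ^ n = 1 := by
    have e1 : v = (L q)⁻¹ * w * (L q)⁻¹⁻¹ := by rw [hv, inv_inv]
    rw [e1, conj_pow, hwn]
    group
  have h3 : ((v * w⁻¹) * w) ^ n = (v * w⁻¹) ^ n * w ^ n := by
    have h4 : Commute (v * w⁻¹) w := hdw
    exact h4.mul_pow n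
  have h5 : v * w⁻¹ * w = v := by group
  rw [h5, h2, hwn, mul_one] at h3
  exact h3.symm

end AL
end ALoop
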