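import Pool.Agent.H98.FT.Bas

/-!
(1): `w` commutes with `D w D`. Author: helper57.
-/

set_option autoImplicit false
namespace ALoop
open Equiv
variable {Q : Type*} {G : Subgroup (Perm Q)} {L : Q → Perm Q} {J : Perm Q} {e : Q}
namespace AL

private theorem rt_memG1 (h : AL G L J e) (s : Q) : rt L J s ∈ G := h.JG _ (h.memL _)

private theorem rt_app1 (h : AL G L J e) (s q : Q) : rt L J s q = L q s := by
  show J (L (J s) (J q)) = L q s
  rw [h.aaip, h.JJ, h.JJ]

private theorem one_F (h : AL G L J e) {x : Q} {c : Perm Q} (o : KX G L J e x c) (q : Q) :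
    L q * (c * c) * (L q)⁻¹ = rt L J x *
      ((pr L x c * c)⁻¹ * D L J q * (pr L x c * c) * D L J q) * (rt L J x)⁻¹ := by
  obtain ⟨-, hDc, -, hRc⟩ := h.b_cx o
  have hDx := h.D_sq x
  have h1 : c * c = D L J (c x) * D L J x := by
    rw [hDc, mul_assoc, hDx, mul_one]
  have h2 : L q * D L J (c x) * (L q)⁻¹ =
      rt L J x * (pr L x c * c)⁻¹ * D L J q * (pr L x c * c) * (rt L J x)⁻¹ := by
    rw [h.D_conj (h.memL q), ← h.rt_app1, ← h.D_conj (h.rt_memG1 _), hRc]
    group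
  have h3 : L q * D L J x * (L q)⁻¹ = rt L J x * D L J q * (rt L J x)⁻¹ := by
    rw [h.D_conj (h.memL q), ← h.rt_app1, ← h.D_conj (h.rt_memG1 _)]
  calc L q * (c * c) * (L q)⁻¹
      = (L q * D L J (c x) * (L q)⁻¹) * (L q * D L J x * (L q)⁻¹) := by rw [h1]; group
    _ = rt L J x * ((pr L x c * c)⁻¹ * D L J q * (pr L x c * c) * D L J q) *
        (rt L J x)⁻¹ := by rw [h2, h3]; group

/-- (1): `w = c' c` commutes with `D w D` -/
theorem one_w (h : AL G L J e) {x : Q} {c : Perm Q} (o : KX G L J e x c) (q : Q) :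
    (pr L x c * c) * (D L J q * (pr L x c * c) * D L J q) =
      (D L J q * (pr L x c * c) * D L J q) * (pr L x c * c) := by
  obtain ⟨hpG, hpD, hpJ, hcc⟩ := h.b_pr o
  have o2 : KX G L J e x (c * c) := by
    obtain ⟨n, hn, hcn⟩ := o.odd
    refine ⟨o.Iv, (Inn G e).mul_mem o.mem o.mem, ⟨n, hn, ?_⟩, ?_⟩
    · rw [(Commute.refl c).mul_pow, hcn, one_mul]
    · have hD := h.D_sq x
      calc D L J x * (c * c) * D L J x
          = D L J x * c * (D L J x * D L J x) * c * D L J x := by rw [hD]; group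
        _ = (D L J x * c * D L J x) * (D L J x * c * D L J x) := by group
        _ = (c * c)⁻¹ := by rw [o.inv]; group
  have f1 := h.one_F o q
  have f2 := h.one_F o2 q
  have hp2 : pr L x (c * c) = pr L x c * pr L x c := by
    unfold pr; group
  have hw2 : pr L x (c * c) * (c * c) = (pr L x c * c) * (pr L x c * c) := by
    rw [hp2]
    calc pr L x c * pr L x c * (c * c) = pr L x c * (pr L x c * c) * c := by group
      _ = pr L x c * (c * pr L x c) * c := by rw [hcc]
      _ = (pr L x c * c) * (pr L x c * c) := by group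
  rw [hw2] at f2
  set w := pr L x c * c with hw
  set D' := D L J q with hD'
  have hDD : D' * D' = 1 := h.D_sq q
  have g1 : (rt L J x * (w⁻¹ * D' * w * D') * (rt L J x)⁻¹) *
      (rt L J x * (w⁻¹ * D' * w * D') * (rt L J x)⁻¹) =
      rt L J x * ((w * w)⁻¹ * D' * (w * w) * D') * (rt L J x)⁻¹ := by
    rw [← f1, ← f2]
    group
  have g2 : (w⁻¹ * D' * w * D') * (w⁻¹ * D' * w * D') = (w * w)⁻¹ * D' * (w * w) * D' := by
    have g3 : rt L J x * ((w⁻¹ * D' * w * D') * (w⁻¹ * D' * w * D')) * (rt L J x)⁻¹ =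
        rt L J x * ((w * w)⁻¹ * D' * (w * w) * D') * (rt L J x)⁻¹ := by
      rw [← g1]; group
    exact mul_left_cancel (mul_right_cancel g3)
  -- w⁻¹ v w⁻¹ v = w⁻² v v with v = D' w D'
  have g4 : w⁻¹ * (D' * w * D') * w⁻¹ * (D' * w * D') =
      w⁻¹ * w⁻¹ * (D' * w * D') * (D' * w * D') := by
    calc w⁻¹ * (D' * w * D') * w⁻¹ * (D' * w * D')
        = (w⁻¹ * D' * w * D') * (w⁻¹ * D' * w * D') := by group
      _ = (w * w)⁻¹ * D' * (w * w) * D' := g2
      _ = w⁻¹ * w⁻¹ * D' * w * (D' * D') * w * D' := by rw [hDD]; group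
      _ = w⁻¹ * w⁻¹ * (D' * w * D') * (D' * w * D') := by group
  have g5 : w⁻¹ * (D' * w * D') * w⁻¹ = w⁻¹ * w⁻¹ * (D' * w * D') := mul_right_cancel g4
  calc w * (D' * w * D') = w * w * (w⁻¹ * (D' * w * D') * w⁻¹) * w := by group
    _ = w * w * (w⁻¹ * w⁻¹ * (D' * w * D')) * w := by rw [g5]
    _ = (D' * w * D') * w := by group

end AL
end ALoop
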