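import Pool.Agent.H98.FT.Zer
import Pool.Agent.H98.FT.One
import Pool.Agent.H98.FT.Alg

/-!
(2), (3): `k = 1`. Author: helper57.
-/

set_option autoImplicit false
namespace ALoop
open Equiv
variable {Q : Type*} {G : Subgroup (Perm Q)} {L : Q → Perm Q} {J : Perm Q} {e : Q}
namespace AL

private theorem rt_memG (h : AL G L J e) (s : Q) : rt L J s ∈ G := h.JG _ (h.memL _)

private theorem rt_app (h : AL G L J e) (s q : Q) : rt L J s q = L q s := by
  show J (L (J s) (J q)) = L q s
  rw [h.aaip, h.JJ, h.JJ]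

private theorem rt_conj (h : AL G L J e) {g : Perm Q} (hg : g ∈ Inn G e) (s : Q) :
    rt L J (g s) = g * rt L J s * g⁻¹ := by
  have hc := h.comJ g hg.1 hg.2
  have hc' : J * g⁻¹ = g⁻¹ * J := by
    calc J * g⁻¹ = g⁻¹ * (g * J) * g⁻¹ := by group
      _ = g⁻¹ * (J * g) * g⁻¹ := by rw [hc]
      _ = g⁻¹ * J := by group
  have h1 : J (g s) = g (J s) := by
    have h2 := congrArg (fun f : Perm Q => f s) hc
    exact h2.symm
  unfold rt
  rw [h1, ← h.equi g hg.1 hg.2]
  calc J * (g * L (J s) * g⁻¹) * J = (J * g) * L (J s) * (g⁻¹ * J) := by group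
    _ = (g * J) * L (J s) * (J * g⁻¹) := by rw [hc, hc']
    _ = g * (J * L (J s) * J) * g⁻¹ := by group

/-- (3): `L_s = c' c^-1`, `R_s = c' c` -/
theorem k_one (h : AL G L J e) {x : Q} {c : Perm Q} (o : KX G L J e x c) :
    L (sp L x c) = pr L x c * c⁻¹ ∧ rt L J (sp L x c) = pr L x c * c := by
  obtain ⟨n, hn, hcn⟩ := o.odd
  obtain ⟨k, hkI, hkx, hks, hkc, hkp, hL, hR⟩ := h.zero_k o
  obtain ⟨hpG, hpD, hpJ, hcc⟩ := h.b_pr o
  obtain ⟨hDs, hcs, hzs, -, -, -⟩ := h.b_sp o
  obtain ⟨-, -, hzI, hzz, -, -, hzJ⟩ := h.b_zz o.Iv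
  have hJJ := h.JJ1
  have hcG : c ∈ G := o.mem.1
  have hpn : (pr L x c) ^ n = 1 := by
    have h1 : pr L x c = (L x)⁻¹ * c * (L x)⁻¹⁻¹ := by unfold pr; rw [inv_inv]
    rw [h1, conj_pow, hcn]
    group
  have hDx : J * D L J x * J = D L J x := by
    have h1 : D L J x * J * J = J * (D L J x * J) := hzJ
    rw [mul_assoc, hJJ, mul_one] at h1
    rw [mul_assoc]
    exact h1.symm
  have hcJ := h.comJ c o.mem.1 o.mem.2
  have hzi : (zz L J x)⁻¹ = zz L J x := inv_eq_of_mul_eq_one_left hzz
  have hzc : zz L J x * c * zz L J x = c⁻¹ := by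
    rw [← o.inv]
    unfold zz
    calc D L J x * J * c * (D L J x * J) = D L J x * (J * c) * (D L J x * J) := by group
      _ = D L J x * (c * J) * (D L J x * J) := by rw [hcJ]
      _ = D L J x * c * (J * D L J x * J) := by group
      _ = D L J x * c * D L J x := by rw [hDx]
  have hzp : zz L J x * pr L x c * zz L J x = (pr L x c)⁻¹ := by
    unfold zz
    calc D L J x * J * pr L x c * (D L J x * J)
        = D L J x * (J * pr L x c * (J * J) * D L J x * J) := by rw [hJJ]; group
      _ = D L J x * ((J * pr L x c * J) * (J * D L J x * J)) := by group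
      _ = D L J x * ((pr L x c)⁻¹ * D L J x) := by rw [hpJ, hDx]
      _ = (D L J x * pr L x c * (D L J x)⁻¹)⁻¹ * (D L J x * D L J x) := by group
      _ = (pr L x c)⁻¹ := by
          rw [← hpD, mul_inv_cancel_right, h.D_sq, mul_one]
  set w := pr L x c * c with hw
  have hwn : w ^ n = 1 := by
    have h1 : Commute (pr L x c) c := hcc
    rw [hw, h1.mul_pow, hpn, hcn, one_mul]
  have hzw : zz L J x * w * zz L J x = w⁻¹ := by
    calc zz L J x * w * zz L J x = zz L J x * pr L x c * (zz L J x * zz L J x) * c * zz L J x := by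
          rw [hw, hzz]; group
      _ = (zz L J x * pr L x c * zz L J x) * (zz L J x * c * zz L J x) := by group
      _ = (pr L x c)⁻¹ * c⁻¹ := by rw [hzp, hzc]
      _ = (c * pr L x c)⁻¹ := by group
      _ = w⁻¹ := by rw [← hcc]
  have hzk : zz L J x * k * zz L J x = k := by
    have h1 := (h.EE_cent hkI).2 hkx
    calc zz L J x * k * zz L J x = (zz L J x * k) * zz L J x := by group
      _ = (k * zz L J x) * zz L J x := by
          have h2 : zz L J x * k = k * zz L J x := h1.symm
          rw [h2]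
      _ = k := by rw [mul_assoc, hzz, mul_one]
  have hRJ : rt L J (J (sp L x c)) = w⁻¹ * k := by
    rw [← hzs, h.rt_conj hzI, hR, hzi]
    calc zz L J x * (w * k) * zz L J x
        = zz L J x * w * (zz L J x * zz L J x) * k * zz L J x := by rw [hzz]; group
      _ = (zz L J x * w * zz L J x) * (zz L J x * k * zz L J x) := by group
      _ = w⁻¹ * k := by rw [hzw, hzk]
  have hkq : ∀ q, k q = q := by
    intro q
    have e1 : L q * (pr L x c * pr L x c) * (L q)⁻¹ =
        w * D L J (k q) * w⁻¹ * D L J q := by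
      have h1 : D L J (L q (sp L x c)) = w * D L J (k q) * w⁻¹ := by
        rw [← h.rt_app, ← h.D_conj (h.rt_memG _), hR, ← h.D_conj hkI.1]
        group
      have h2 : D L J (L q (sp L x c)) = L q * (pr L x c * pr L x c) * J * (L q)⁻¹ := by
        rw [← h.D_conj (h.memL q), hDs]
        group
      calc L q * (pr L x c * pr L x c) * (L q)⁻¹
          = (L q * (pr L x c * pr L x c) * J * (L q)⁻¹) * (L q * J⁻¹ * (L q)⁻¹) := by group
        _ = (w * D L J (k q) * w⁻¹) * (L q * J * (L q)⁻¹) := by rw [← h2, h1, h.Jinv]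
        _ = w * D L J (k q) * w⁻¹ * D L J q := rfl
    have e2 : L q * (pr L x c * pr L x c)⁻¹ * (L q)⁻¹ =
        w⁻¹ * D L J (k q) * w * D L J q := by
      have h1 : D L J (L q (J (sp L x c))) = w⁻¹ * D L J (k q) * w := by
        rw [← h.rt_app, ← h.D_conj (h.rt_memG _), hRJ, ← h.D_conj hkI.1]
        group
      have h3 : D L J (J (sp L x c)) = (pr L x c * pr L x c)⁻¹ * J := by
        rw [← h.D_J, hDs]
        calc J * (pr L x c * pr L x c * J) * J
            = J * pr L x c * (J * J) * pr L x c * J * J := by rw [hJJ]; group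
          _ = (J * pr L x c * J) * (J * pr L x c * J) * J := by group
          _ = (pr L x c * pr L x c)⁻¹ * J := by rw [hpJ]; group
      have h2 : D L J (L q (J (sp L x c))) = L q * (pr L x c * pr L x c)⁻¹ * J * (L q)⁻¹ := by
        rw [← h.D_conj (h.memL q), h3]
        group
      calc L q * (pr L x c * pr L x c)⁻¹ * (L q)⁻¹
          = (L q * (pr L x c * pr L x c)⁻¹ * J * (L q)⁻¹) * (L q * J⁻¹ * (L q)⁻¹) := by group
        _ = (w⁻¹ * D L J (k q) * w) * (L q * J * (L q)⁻¹) := by rw [← h2, h1, h.Jinv]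
        _ = w⁻¹ * D L J (k q) * w * D L J q := rfl
    have hDi : ∀ p, (D L J p)⁻¹ = D L J p := fun p => inv_eq_of_mul_eq_one_left (h.D_sq p)
    apply h.D_inj
    refine alg_three (w := w) (D := D L J q) (D' := D L J (k q)) (h.D_sq _) (h.D_sq _) hn hwn
      (h.one_w o q) (h.one_w o (k q)) ?_ hn (m := n) ?_
    · rw [← e2]
      calc D L J q * w * D L J (k q) * w⁻¹
          = (D L J q)⁻¹ * w * (D L J (k q))⁻¹ * w⁻¹ := by rw [hDi, hDi]
        _ = (w * D L J (k q) * w⁻¹ * D L J q)⁻¹ := by group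
        _ = L q * (pr L x c * pr L x c)⁻¹ * (L q)⁻¹ := by rw [← e1]; group
    · rw [← e1, conj_pow]
      have h1 : Commute (pr L x c) (pr L x c) := Commute.refl _
      rw [h1.mul_pow, hpn]
      group
  have hk1 : k = 1 := by
    ext q
    simpa using hkq q
  rw [hL, hR, hk1]
  exact ⟨by group, by group⟩

end AL
end ALoop
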