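import Pool.Agent.H98.FT.Bas
import Pool.Agent.H98.FT.Kon
import Pool.Agent.H98.FT.Fou
import Pool.Agent.H98.FT.SixC
import Pool.Agent.H98.FT.Eig

/-!
(9): if `L_x^2` commutes with `c` then `w = c' c` commutes with `L_y` for all involutions `y`
(note 6669 of helper98).
-/

set_option autoImplicit false

namespace ALoop

open Equiv

variable {Q : Type*} {G : Subgroup (Perm Q)} {L : Q → Perm Q} {J : Perm Q} {e : Q}

namespace AL

private theorem nin_inv (h : AL G L J e) {x : Q} {c : Perm Q} (o : KX G L J e x c) :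
    KX G L J e x c⁻¹ := by
  obtain ⟨n, hn, hc⟩ := o.odd
  refine ⟨o.Iv, (Inn G e).inv_mem o.mem, ⟨n, hn, by rw [inv_pow, hc, inv_one]⟩, ?_⟩
  have hD : D L J x * D L J x = 1 := h.D_sq x
  rw [inv_inv, ← o.inv]
  calc D L J x * (D L J x * c * D L J x) * D L J x
      = (D L J x * D L J x) * c * (D L J x * D L J x) := by group
    _ = c := by rw [hD, one_mul, mul_one]

private theorem nin_rt (h : AL G L J e) {g : Perm Q} (hg : g ∈ Inn G e) (q : Q) :
    g * rt L J q * g⁻¹ = rt L J (g q) := by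
  obtain ⟨hG, he⟩ := mem_Inn.1 hg
  have hJ := h.comJ g hG he
  have hJ' : J * g⁻¹ = g⁻¹ * J := by
    calc J * g⁻¹ = g⁻¹ * (g * J) * g⁻¹ := by group
      _ = g⁻¹ * (J * g) * g⁻¹ := by rw [hJ]
      _ = g⁻¹ * J := by group
  have h1 := h.equi g hG he (J q)
  have h2 : g (J q) = J (g q) := by
    have := congrArg (fun p : Perm Q => p q) hJ
    simpa using this
  unfold rt
  calc g * (J * L (J q) * J) * g⁻¹ = (g * J) * L (J q) * (J * g⁻¹) := by group
    _ = (J * g) * L (J q) * (g⁻¹ * J) := by rw [hJ, hJ']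
    _ = J * (g * L (J q) * g⁻¹) * J := by group
    _ = J * L (J (g q)) * J := by rw [h1, h2]

theorem nine (h : AL G L J e) {x : Q} {c : Perm Q} (o : KX G L J e x c)
    (hl : L x * L x * c = c * (L x * L x)) {y : Q} (hy : Iv J e y) :
    (pr L x c * c) * L y = L y * (pr L x c * c) := by
  obtain ⟨w, hw⟩ : ∃ w, w = pr L x c * c := ⟨_, rfl⟩
  obtain ⟨s, hs⟩ : ∃ s, s = sp L x c := ⟨_, rfl⟩
  obtain ⟨k, hk⟩ : ∃ k, k = kk L J y x := ⟨_, rfl⟩
  obtain ⟨d, hd⟩ : ∃ d, d = (L y)⁻¹ * w * L y * w⁻¹ := ⟨_, rfl⟩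
  -- mu = 1
  have hmu : pr L x c * (sr L x c)⁻¹ = 1 := by
    rw [mul_inv_eq_one]
    unfold pr sr
    calc (L x)⁻¹ * c * L x = (L x)⁻¹ * (c * (L x * L x)) * (L x)⁻¹ := by group
      _ = (L x)⁻¹ * (L x * L x * c) * (L x)⁻¹ := by rw [hl]
      _ = L x * c * (L x)⁻¹ := by group
  obtain ⟨hk1, hk2, hk3⟩ := h.six_k o.Iv hy
  rw [← hk] at hk1 hk2 hk3
  obtain ⟨hkG, hke⟩ := mem_Inn.1 hk1
  -- w k w^-1 fixes y
  have e8 := h.eight' o hy
  rw [← hk, ← hw, hmu, mul_one] at e8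
  have e8' : k (w⁻¹ y) = w⁻¹ y := by
    have : w (k (w⁻¹ y)) = y := by simpa using e8
    rw [Perm.eq_inv_iff_eq]
    exact this
  -- w = R_s, w^-1 = R_(J s)
  have hws : rt L J s = w := by
    rw [hs, hw]
    exact (h.k_one o).2
  have hJx : J x = x := o.Iv.1
  have hci : c⁻¹ ∈ Inn G e := (Inn G e).inv_mem o.mem
  have hsp : sp L x c⁻¹ = J s := by
    have b := (h.b_sp o).2.2.2.2.1
    rw [← hs] at b
    have h1 : J (L s x) = L x (J s) := by
      rw [h.aaip, hJx]
    have h2 : J (c⁻¹ x) = c⁻¹ x := by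
      have h3 := h.comJ c⁻¹ (mem_Inn.1 hci).1 (mem_Inn.1 hci).2
      have h4 := congrArg (fun p : Perm Q => p x) h3
      simp only [Perm.mul_apply, hJx] at h4
      exact h4.symm
    unfold sp
    rw [Perm.inv_eq_iff_eq, ← h1, b, h2]
  have hwi : rt L J (J s) = w⁻¹ := by
    have h1 := (h.k_one (h.nin_inv o)).2
    rw [hsp] at h1
    rw [h1, hw, mul_inv_rev]
    have h2 := (h.b_pr o).2.2.2
    have h3 : pr L x c⁻¹ = (pr L x c)⁻¹ := by
      unfold pr
      group
    rw [h3]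
    calc (pr L x c)⁻¹ * c⁻¹ = (c * pr L x c)⁻¹ := by group
      _ = (pr L x c * c)⁻¹ := by rw [h2]
      _ = c⁻¹ * (pr L x c)⁻¹ := by group
  have hwy : w⁻¹ y = L y (J s) := by
    rw [← hwi]
    exact h.R_apply y (J s)
  -- k fixes s
  have hkJs : k (J s) = J s := by
    have h1 := h.aut hkG hke y (J s)
    rw [← hwy, e8', hk3, hwy] at h1
    exact ((L y).injective h1).symm
  have hks : k s = s := by
    have h1 := congrArg (fun p : Perm Q => p s) (h.comJ k hkG hke)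
    simp only [Perm.mul_apply] at h1
    rw [hkJs] at h1
    exact (J.injective h1).symm
  have hkw : k * w = w * k := by
    rw [← hws]
    exact h.comR hkG hke hks
  have hkw' : w * k * w⁻¹ = k := by
    rw [← hkw]
    group
  -- eight
  have e9 := h.eight o hy
  rw [← hk, ← hw, hmu, mul_one, ← hd, hkw'] at e9
  obtain ⟨f1, f2, f3⟩ := h.six_k (h.b_cx o).1 hy
  obtain ⟨E, hE⟩ : ∃ E, E = L y * d * (L y)⁻¹ := ⟨_, rfl⟩
  rw [← hE] at e9
  have hE2 : E = k * (kk L J y (c x))⁻¹ := by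
    rw [e9]
    group
  have hEm : E ∈ Inn G e := by
    rw [hE2]
    exact (Inn G e).mul_mem hk1 ((Inn G e).inv_mem f1)
  have hEy : E y = y := by
    rw [hE2, Perm.mul_apply]
    have : (kk L J y (c x))⁻¹ y = y := by
      rw [Perm.inv_eq_iff_eq]
      exact f3.symm
    rw [this, hk3]
  have hEL := h.comL (mem_Inn.1 hEm).1 (mem_Inn.1 hEm).2 hEy
  have hdL : (L y)⁻¹ * d * L y = d := by
    have h1 : L y * d = L y * (L y * d * (L y)⁻¹) := by
      rw [hE] at hEL
      rw [← hEL]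
      group
    have h2 := mul_left_cancel h1
    calc (L y)⁻¹ * d * L y = (L y)⁻¹ * (L y * d * (L y)⁻¹) * L y := by rw [← h2]
      _ = d := by group
  -- conjugation by L y
  have g1 : (L y)⁻¹ * w * L y = d * w := by
    rw [hd]
    group
  have g2 : (L y * L y)⁻¹ * w * (L y * L y) = d * d * w := by
    calc (L y * L y)⁻¹ * w * (L y * L y) = (L y)⁻¹ * ((L y)⁻¹ * w * L y) * L y := by group
      _ = (L y)⁻¹ * (d * w) * L y := by rw [g1]
      _ = ((L y)⁻¹ * d * L y) * ((L y)⁻¹ * w * L y) := by group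
      _ = d * (d * w) := by rw [hdL, g1]
      _ = d * d * w := by group
  have hlam : L y * L y ∈ Inn G e := by
    rw [mem_Inn]
    refine ⟨G.mul_mem (h.memL y) (h.memL y), ?_⟩
    rw [Perm.mul_apply, h.Le, h.LxLx hy.1]
  have g3 := h.nin_rt ((Inn G e).inv_mem hlam) s
  rw [inv_inv, hws, g2] at g3
  obtain ⟨d1, d2, d3, d4⟩ := h.four_d o y
  rw [← hw, ← hd] at d1 d2 d3 d4
  rw [← hs] at d2
  have rte : ∀ q : Q, rt L J q e = q := by
    intro q
    have h1 : rt L J q e = L e q := h.R_apply e q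
    rw [h1, h.Le1, Perm.one_apply]
  have g4 : (L y * L y)⁻¹ s = s := by
    have h1 := congrArg (fun p : Perm Q => p e) g3
    simp only [Perm.mul_apply] at h1
    rw [rte, ← hws, rte, d2, d2] at h1
    exact h1.symm
  rw [g4, hws] at g3
  have hdd : d * d = 1 := by
    have h1 : d * d * w = 1 * w := by rw [g3, one_mul]
    exact mul_right_cancel h1
  have hd1 : d = 1 := by
    obtain ⟨n, hn, hdn⟩ := d4
    obtain ⟨m, hm⟩ := hn
    rw [hm, pow_succ, pow_mul, sq, hdd, one_pow, one_mul] at hdn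
    exact hdn
  rw [← hw]
  rw [hd1, one_mul] at g1
  calc w * L y = L y * ((L y)⁻¹ * w * L y) := by group
    _ = L y * w := by rw [g1]

end AL

end ALoop
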