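import Pool.Agent.H98.FT.Def

/-!
# FT-SixA

(6a): `rho = z_y z_x` is conjugated in the same way by `L x` and by `L y`, and commutes with the
conjugate.
-/

set_option autoImplicit false

namespace ALoop

open Equiv

variable {Q : Type*} {G : Subgroup (Perm Q)} {L : Q → Perm Q} {J : Perm Q} {e : Q}

namespace AL

/-- `D y * D x` is conjugated in the same way by `L x` and by `L y` -/
theorem six_rhoD (h : AL G L J e) {x y : Q} (hx : J x = x) (hy : J y = y) :
    L x * (D L J y * D L J x) * (L x)⁻¹ = L y * (D L J y * D L J x) * (L y)⁻¹ := by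
  have e1 : L x * (D L J y * D L J x) * (L x)⁻¹ = D L J (L x y) * J := by
    have a := h.D_conj (h.memL x) y
    have b := h.D_conj (h.memL x) x
    rw [h.LxLx hx, h.D_e] at b
    calc L x * (D L J y * D L J x) * (L x)⁻¹
        = (L x * D L J y * (L x)⁻¹) * (L x * D L J x * (L x)⁻¹) := by group
      _ = _ := by rw [a, b]
  have e2 : L y * (D L J y * D L J x) * (L y)⁻¹ = J * D L J (L y x) := by
    have a := h.D_conj (h.memL y) x
    have b := h.D_conj (h.memL y) y
    rw [h.LxLx hy, h.D_e] at b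
    calc L y * (D L J y * D L J x) * (L y)⁻¹
        = (L y * D L J y * (L y)⁻¹) * (L y * D L J x * (L y)⁻¹) := by group
      _ = _ := by rw [a, b]
  have e3 : L y x = J (L x y) := by rw [h.aaip, hx, hy]
  rw [e1, e2, e3, ← h.D_J]
  calc D L J (L x y) * J = (J * J) * D L J (L x y) * J := by rw [h.JJ1, one_mul]
    _ = J * (J * D L J (L x y) * J) := by group

/-- `z x` inverts `D y * D x` -/
theorem six_inv (h : AL G L J e) {x y : Q} (hx : J x = x) (hy : J y = y) :
    (D L J x * J) * (D L J y * D L J x) * (D L J x * J) = (D L J y * D L J x)⁻¹ := by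
  have hDx := h.D_sq x
  have hDy := h.D_sq y
  have ix : (D L J x)⁻¹ = D L J x := inv_eq_of_mul_eq_one_left hDx
  have iy : (D L J y)⁻¹ = D L J y := inv_eq_of_mul_eq_one_left hDy
  have cx := h.Dx_J hx
  have cy := h.Dx_J hy
  rw [mul_inv_rev, ix, iy]
  calc D L J x * J * (D L J y * D L J x) * (D L J x * J)
      = D L J x * (J * D L J y) * (D L J x * D L J x) * J := by group
    _ = D L J x * (D L J y * J) * 1 * J := by rw [cy, hDx]
    _ = D L J x * D L J y * (J * J) := by group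
    _ = D L J x * D L J y := by rw [h.JJ1, mul_one]

/-- `D y * D x` commutes with its conjugate under `L x` -/
theorem six_comm (h : AL G L J e) {x y : Q} (hx : J x = x) (hy : J y = y) (hxe : x ≠ e)
    (hye : y ≠ e) :
    (D L J y * D L J x) * (L x * (D L J y * D L J x) * (L x)⁻¹) =
      (L x * (D L J y * D L J x) * (L x)⁻¹) * (D L J y * D L J x) := by
  set ρ := D L J y * D L J x with hρ
  set σ := L x * ρ * (L x)⁻¹ with hσ
  have hσy : σ = L y * ρ * (L y)⁻¹ := h.six_rhoD hx hy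
  have zx := h.Lx_z hx hxe
  have zy := h.Lx_z hy hye
  have sx : (D L J x * J) * (D L J x * J) = 1 := h.Z_sq (h.zx_mem hx hxe)
  have sy : (D L J y * J) * (D L J y * J) = 1 := h.Z_sq (h.zx_mem hy hye)
  have ix : (D L J x * J) * ρ * (D L J x * J) = ρ⁻¹ := h.six_inv hx hy
  have hρi : ρ⁻¹ = D L J x * D L J y := by
    have ix : (D L J x)⁻¹ = D L J x := inv_eq_of_mul_eq_one_left (h.D_sq x)
    have iy : (D L J y)⁻¹ = D L J y := inv_eq_of_mul_eq_one_left (h.D_sq y)
    rw [hρ, mul_inv_rev, ix, iy]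
  have iy : (D L J y * J) * ρ * (D L J y * J) = ρ⁻¹ := by
    have h1 : (D L J y * J) * (D L J x * D L J y) * (D L J y * J) = (D L J x * D L J y)⁻¹ :=
      h.six_inv hy hx
    rw [← hρi, inv_inv] at h1
    calc (D L J y * J) * ρ * (D L J y * J)
        = (D L J y * J) * ((D L J y * J) * ρ⁻¹ * (D L J y * J)) * (D L J y * J) := by rw [h1]
      _ = ((D L J y * J) * (D L J y * J)) * ρ⁻¹ * ((D L J y * J) * (D L J y * J)) := by group
      _ = ρ⁻¹ := by rw [sy]; group
  have jx : (D L J x * J) * σ * (D L J x * J) = σ⁻¹ := by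
    have zxi : (L x)⁻¹ * (D L J x * J) = (D L J x * J) * (L x)⁻¹ := by
      calc (L x)⁻¹ * (D L J x * J) = (L x)⁻¹ * ((D L J x * J) * L x) * (L x)⁻¹ := by group
        _ = (L x)⁻¹ * (L x * (D L J x * J)) * (L x)⁻¹ := by rw [zx]
        _ = (D L J x * J) * (L x)⁻¹ := by group
    calc (D L J x * J) * (L x * ρ * (L x)⁻¹) * (D L J x * J)
        = ((D L J x * J) * L x) * ρ * ((L x)⁻¹ * (D L J x * J)) := by group
      _ = (L x * (D L J x * J)) * ρ * ((D L J x * J) * (L x)⁻¹) := by rw [zx, zxi]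
      _ = L x * ((D L J x * J) * ρ * (D L J x * J)) * (L x)⁻¹ := by group
      _ = L x * ρ⁻¹ * (L x)⁻¹ := by rw [ix]
      _ = σ⁻¹ := by rw [hσ]; group
  have jy : (D L J y * J) * σ * (D L J y * J) = σ⁻¹ := by
    have zyi : (L y)⁻¹ * (D L J y * J) = (D L J y * J) * (L y)⁻¹ := by
      calc (L y)⁻¹ * (D L J y * J) = (L y)⁻¹ * ((D L J y * J) * L y) * (L y)⁻¹ := by group
        _ = (L y)⁻¹ * (L y * (D L J y * J)) * (L y)⁻¹ := by rw [zy]
        _ = (D L J y * J) * (L y)⁻¹ := by group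
    rw [hσy]
    calc (D L J y * J) * (L y * ρ * (L y)⁻¹) * (D L J y * J)
        = ((D L J y * J) * L y) * ρ * ((L y)⁻¹ * (D L J y * J)) := by group
      _ = (L y * (D L J y * J)) * ρ * ((D L J y * J) * (L y)⁻¹) := by rw [zy, zyi]
      _ = L y * ((D L J y * J) * ρ * (D L J y * J)) * (L y)⁻¹ := by group
      _ = L y * ρ⁻¹ * (L y)⁻¹ := by rw [iy]
      _ = (L y * ρ * (L y)⁻¹)⁻¹ := by group
  have hρz : ρ = (D L J y * J) * (D L J x * J) := by
    rw [hρ]
    calc D L J y * D L J x = D L J y * (J * J) * D L J x := by rw [h.JJ1, mul_one]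
      _ = D L J y * J * (J * D L J x) := by group
      _ = D L J y * J * (D L J x * J) := by rw [h.Dx_J hx]
  have kx : (D L J x * J) * σ = σ⁻¹ * (D L J x * J) := by
    calc (D L J x * J) * σ = ((D L J x * J) * σ * (D L J x * J)) * (D L J x * J)⁻¹ := by group
      _ = σ⁻¹ * (D L J x * J) := by rw [jx, inv_eq_of_mul_eq_one_left sx]
  have ky : (D L J y * J) * σ⁻¹ = σ * (D L J y * J) := by
    have h1 : (D L J y * J) * σ = σ⁻¹ * (D L J y * J) := by
      calc (D L J y * J) * σ = ((D L J y * J) * σ * (D L J y * J)) * (D L J y * J)⁻¹ := by group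
        _ = σ⁻¹ * (D L J y * J) := by rw [jy, inv_eq_of_mul_eq_one_left sy]
    calc (D L J y * J) * σ⁻¹ = σ * (σ⁻¹ * (D L J y * J)) * σ⁻¹ := by group
      _ = σ * ((D L J y * J) * σ) * σ⁻¹ := by rw [h1]
      _ = σ * (D L J y * J) := by group
  rw [hρz]
  calc D L J y * J * (D L J x * J) * σ = D L J y * J * ((D L J x * J) * σ) := by group
    _ = ((D L J y * J) * σ⁻¹) * (D L J x * J) := by rw [kx]; group
    _ = σ * (D L J y * J * (D L J x * J)) := by rw [ky]; group

theorem zz_mul (h : AL G L J e) {x : Q} (hx : J x = x) (y : Q) :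
    zz L J y * zz L J x = D L J y * D L J x := by
  unfold zz
  calc D L J y * J * (D L J x * J) = D L J y * J * (J * D L J x) := by rw [h.Dx_J hx]
    _ = D L J y * (J * J) * D L J x := by group
    _ = D L J y * D L J x := by rw [h.JJ1, mul_one]

/-- (6a): `rho = z_y z_x`, `L_x rho L_x^-1 = L_y rho L_y^-1`, and `rho` commutes with it -/
theorem six_rho (h : AL G L J e) {x y : Q} (hx : Iv J e x) (hy : Iv J e y) :
    sr L x (zz L J y * zz L J x) = sr L y (zz L J y * zz L J x) ∧
    (zz L J y * zz L J x) * sr L x (zz L J y * zz L J x) =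
      sr L x (zz L J y * zz L J x) * (zz L J y * zz L J x) := by
  rw [h.zz_mul hx.1 y]
  exact ⟨h.six_rhoD hx.1 hy.1, h.six_comm hx.1 hy.1 hx.2 hy.2⟩

end AL

end ALoop
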