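import Pool.Agent.H98.FT.Def
import Pool.Agent.H98.FT.Bas
import Pool.Agent.H98.FT.SixA

/-!
(7) of note 6669 (helper98): `k(c x, x) = 1` and `k(z_s x, x) = 1`.
-/

set_option autoImplicit false

namespace ALoop

open Equiv

theorem sev_alg_a {M : Type*} [Group M] {z l v : M} (hv : z * v * z = v⁻¹) (hz : z * z = 1) :
    (l * v * (l * z)⁻¹) * (l * v * (l * z)⁻¹) = 1 := by
  have hzi : z⁻¹ = z := inv_eq_of_mul_eq_one_left hz
  calc (l * v * (l * z)⁻¹) * (l * v * (l * z)⁻¹)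
      = l * v * (z⁻¹ * v * z⁻¹) * l⁻¹ := by group
    _ = l * v * (z * v * z) * l⁻¹ := by rw [hzi]
    _ = l * v * v⁻¹ * l⁻¹ := by rw [hv]
    _ = 1 := by group

theorem sev_alg_b {M : Type*} [Group M] {z s l : M} (hz : z * z = 1) (hs : s * s = 1)
    (hzl : z * l = l * z)
    (hc : (s * z) * (l * (s * z) * l⁻¹) = (l * (s * z) * l⁻¹) * (s * z)) :
    (s * l * s⁻¹ * (l * z)⁻¹) * (s * l * s⁻¹ * (l * z)⁻¹) = 1 := by
  have hzi : z⁻¹ = z := inv_eq_of_mul_eq_one_left hz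
  have hsi : s⁻¹ = s := inv_eq_of_mul_eq_one_left hs
  have hlz : l⁻¹ * z = z * l⁻¹ := by
    calc l⁻¹ * z = l⁻¹ * (z * l) * l⁻¹ := by group
      _ = l⁻¹ * (l * z) * l⁻¹ := by rw [hzl]
      _ = z * l⁻¹ := by group
  set t := l * (s * z) * l⁻¹ with ht
  have h1 : s * l * s⁻¹ * (l * z)⁻¹ = s * t := by
    calc s * l * s⁻¹ * (l * z)⁻¹ = s * (l * (s⁻¹ * z⁻¹) * l⁻¹) := by group
      _ = s * t := by rw [hsi, hzi]
  have h2 : z * t * z = t⁻¹ := by
    calc z * t * z = (z * l) * (s * z) * (l⁻¹ * z) := by rw [ht]; group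
      _ = (l * z) * (s * z) * (z * l⁻¹) := by rw [hzl, hlz]
      _ = l * (z * s * (z * z)) * l⁻¹ := by group
      _ = l * (z⁻¹ * s⁻¹) * l⁻¹ := by rw [hz, mul_one, hzi, hsi]
      _ = t⁻¹ := by rw [ht]; group
  have h3 : s * t * s = t⁻¹ := by
    calc s * t * s = (s * z) * (z⁻¹ * t * z⁻¹) * (s⁻¹ * z⁻¹)⁻¹ := by
          rw [hsi]
          have : (s * z⁻¹)⁻¹ = z * s := by rw [mul_inv_rev, inv_inv, hsi]
          rw [this]
          calc s * t * s = s * (z * z⁻¹) * t * (z⁻¹ * z) * s := by group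
            _ = (s * z) * (z⁻¹ * t * z⁻¹) * (z * s) := by group
      _ = (s * z) * (z * t * z) * (s * z)⁻¹ := by
          rw [hzi, hsi]
      _ = (s * z) * t⁻¹ * (s * z)⁻¹ := by rw [h2]
      _ = t⁻¹ * ((t * (s * z)) * t⁻¹ * (s * z)⁻¹) := by group
      _ = t⁻¹ * (((s * z) * t) * t⁻¹ * (s * z)⁻¹) := by rw [← hc]
      _ = t⁻¹ := by group
  rw [h1]
  calc s * t * (s * t) = (s * t * s) * t := by group
    _ = 1 := by rw [h3]; group

variable {Q : Type*} {G : Subgroup (Perm Q)} {L : Q → Perm Q} {J : Perm Q} {e : Q}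

namespace AL

/-- (7a) -/
theorem seven_a (h : AL G L J e) {x : Q} {c : Perm Q} (o : KX G L J e x c) :
    kk L J (c x) x = 1 := by
  obtain ⟨-, -, hL, -⟩ := h.b_cx o
  obtain ⟨-, hR, hzI, hzz, -, -, hzJ⟩ := h.b_zz o.Iv
  obtain ⟨-, h1, h2, h3⟩ := h.b_pr o
  have hJ := h.JJ1
  have hcJ := h.comJ c o.mem.1 o.mem.2
  have hD := h.D_sq x
  unfold kk
  rw [hL, hR]
  apply sev_alg_a _ hzz
  set p := pr L x c with hp
  have h4 : zz L J x * p * zz L J x = p⁻¹ := by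
    have hz : zz L J x = D L J x * J := rfl
    calc zz L J x * p * zz L J x = D L J x * J * (p * D L J x) * J := by rw [hz]; group
      _ = D L J x * J * (D L J x * p) * J := by rw [h1]
      _ = D L J x * J * D L J x * (J * J) * p * J := by rw [hJ]; group
      _ = (D L J x * J) * (D L J x * J) * (J * p * J) := by group
      _ = p⁻¹ := by rw [h2]; rw [hz] at hzz; rw [hzz, one_mul]
  have h5 : zz L J x * c * zz L J x = c⁻¹ := by
    have hz : zz L J x = D L J x * J := rfl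
    calc zz L J x * c * zz L J x = D L J x * (J * c) * zz L J x := by
          nth_rewrite 1 [hz]; group
      _ = D L J x * c * (J * zz L J x) := by rw [← hcJ]; group
      _ = D L J x * c * (D L J x * (J * J)) := by rw [← hzJ, hz]; group
      _ = c⁻¹ := by rw [hJ, mul_one]; exact o.inv
  calc zz L J x * (p * c⁻¹) * zz L J x
      = (zz L J x * p * zz L J x) * ((zz L J x)⁻¹ * c⁻¹ * zz L J x) := by group
    _ = (zz L J x * p * zz L J x) * ((zz L J x)⁻¹ * c * (zz L J x)⁻¹⁻¹)⁻¹ := by group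
    _ = p⁻¹ * (c⁻¹)⁻¹ := by
        rw [h4, inv_inv, inv_eq_of_mul_eq_one_left hzz, h5]
    _ = c * p⁻¹ := by
        rw [inv_inv]
        calc p⁻¹ * c = p⁻¹ * (c * p) * p⁻¹ := by group
          _ = p⁻¹ * (p * c) * p⁻¹ := by rw [h3]
          _ = c * p⁻¹ := by group
    _ = (p * c⁻¹)⁻¹ := by group

/-- (7b) -/
theorem seven_b (h : AL G L J e) {x s : Q} (hx : Iv J e x) (hs : Iv J e s) :
    kk L J (zz L J s x) x = 1 := by
  obtain ⟨hR1, hR, hzI, hzz, -, -, hzJ⟩ := h.b_zz hx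
  obtain ⟨-, -, hsI, hss, -, -, -⟩ := h.b_zz hs
  obtain ⟨-, hc⟩ := h.six_rho hx hs
  have hL : L (zz L J s x) = zz L J s * L x * (zz L J s)⁻¹ :=
    (h.equi _ hsI.1 hsI.2 x).symm
  unfold kk
  rw [hL, hR]
  exact sev_alg_b hzz hss (hR1.symm.trans hR) hc

end AL

end ALoop
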