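import Pool.Agent.H98.FT.Bas
import Pool.Agent.H98.FT.Kon

/-!
(10a), (10b): `c'` commutes with `c*`, and `d = lam^-1 c lam c^-1` is in `K_x` (`lam = L_x^2`).
-/

set_option autoImplicit false

namespace ALoop

open Equiv

variable {Q : Type*} {G : Subgroup (Perm Q)} {L : Q → Perm Q} {J : Perm Q} {e : Q}

namespace AL

/-- `c'' = L_x^-2 c L_x^2` is an inner mapping which commutes with `c` -/
theorem tenA_aux (h : AL G L J e) {x : Q} {c : Perm Q} (o : KX G L J e x c) :
    pr L x (pr L x c) ∈ Inn G e ∧ pr L x (pr L x c) * c = c * pr L x (pr L x c) := by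
  obtain ⟨hG, hD, hJ, hc⟩ := h.b_pr o
  obtain ⟨hs, -⟩ := h.b_sp o
  obtain ⟨hLs, hRs⟩ := h.k_one o
  obtain ⟨n, hn, hcn⟩ := o.odd
  set g := pr L x c with hg
  set s := sp L x c with hsd
  have hLG := h.memL x
  have hghG : pr L x g ∈ G := G.mul_mem (G.mul_mem (G.inv_mem hLG) hG) hLG
  have hJc : pr L x g * J = J * pr L x g := by
    have h1 : J = (L x)⁻¹ * D L J x * L x := by unfold D; group
    unfold pr
    calc (L x)⁻¹ * g * L x * J = (L x)⁻¹ * g * L x * ((L x)⁻¹ * D L J x * L x) := by rw [← h1]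
      _ = (L x)⁻¹ * (g * D L J x) * L x := by group
      _ = (L x)⁻¹ * (D L J x * g) * L x := by rw [hD]
      _ = ((L x)⁻¹ * D L J x * L x) * ((L x)⁻¹ * g * L x) := by group
      _ = J * ((L x)⁻¹ * g * L x) := by rw [← h1]
  have hghe : pr L x g e = e := h.centJ hghG hJc
  have hgg : pr L x g * g = g * pr L x g := by
    have h1 : g = (L x)⁻¹ * c * L x := rfl
    unfold pr
    calc (L x)⁻¹ * g * L x * g = (L x)⁻¹ * g * L x * ((L x)⁻¹ * c * L x) := by rw [← h1]
      _ = (L x)⁻¹ * (g * c) * L x := by group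
      _ = (L x)⁻¹ * (c * g) * L x := by rw [hc]
      _ = ((L x)⁻¹ * c * L x) * ((L x)⁻¹ * g * L x) := by group
      _ = g * ((L x)⁻¹ * g * L x) := by rw [← h1]
  have hghs : pr L x g s = s := by
    rw [← h.D_cent hghG, hs]
    calc pr L x g * (g * g * J) = (pr L x g * g) * g * J := by group
      _ = (g * pr L x g) * g * J := by rw [hgg]
      _ = g * (pr L x g * g) * J := by group
      _ = g * (g * pr L x g) * J := by rw [hgg]
      _ = g * g * (pr L x g * J) := by group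
      _ = g * g * (J * pr L x g) := by rw [hJc]
      _ = g * g * J * pr L x g := by group
  have h1 := h.comL hghG hghe hghs
  have h2 : pr L x g * rt L J s = rt L J s * pr L x g := h.comR hghG hghe hghs
  rw [hLs] at h1
  rw [hRs] at h2
  refine ⟨⟨hghG, hghe⟩, ?_⟩
  have h3 : c * c * pr L x g = pr L x g * (c * c) := by
    have e1 : c * c = (g * c⁻¹)⁻¹ * (g * c) := by group
    have h1' : (g * c⁻¹)⁻¹ * pr L x g = pr L x g * (g * c⁻¹)⁻¹ := by
      calc (g * c⁻¹)⁻¹ * pr L x g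
          = (g * c⁻¹)⁻¹ * (pr L x g * (g * c⁻¹)) * (g * c⁻¹)⁻¹ := by group
        _ = (g * c⁻¹)⁻¹ * ((g * c⁻¹) * pr L x g) * (g * c⁻¹)⁻¹ := by rw [h1]
        _ = pr L x g * (g * c⁻¹)⁻¹ := by group
    rw [e1]
    calc (g * c⁻¹)⁻¹ * (g * c) * pr L x g = (g * c⁻¹)⁻¹ * ((g * c) * pr L x g) := by
          rw [mul_assoc]
      _ = (g * c⁻¹)⁻¹ * (pr L x g * (g * c)) := by rw [h2]
      _ = ((g * c⁻¹)⁻¹ * pr L x g) * (g * c) := by rw [mul_assoc]
      _ = pr L x g * ((g * c⁻¹)⁻¹ * (g * c)) := by rw [h1', mul_assoc]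
  exact (comm_of_sq hn hcn h3).symm

/-- (10a): `c'` commutes with `c*` -/
theorem ten_com (h : AL G L J e) {x : Q} {c : Perm Q} (o : KX G L J e x c) :
    pr L x c * sr L x c = sr L x c * pr L x c := by
  obtain ⟨-, h1⟩ := h.tenA_aux o
  have e1 : pr L x c = L x * pr L x (pr L x c) * (L x)⁻¹ := by unfold pr; group
  calc pr L x c * sr L x c = (L x * pr L x (pr L x c) * (L x)⁻¹) * (L x * c * (L x)⁻¹) := by
        rw [← e1]; rfl
    _ = L x * (pr L x (pr L x c) * c) * (L x)⁻¹ := by group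
    _ = L x * (c * pr L x (pr L x c)) * (L x)⁻¹ := by rw [h1]
    _ = (L x * c * (L x)⁻¹) * (L x * pr L x (pr L x c) * (L x)⁻¹) := by group
    _ = sr L x c * pr L x c := by rw [← e1]; rfl

/-- (10b): `d = lam^-1 c lam c^-1` is in `K_x` (`lam = L_x^2`) -/
theorem ten_d (h : AL G L J e) {x : Q} {c : Perm Q} (o : KX G L J e x c) :
    KX G L J e x (pr L x (pr L x c) * c⁻¹) := by
  obtain ⟨hm, h1⟩ := h.tenA_aux o
  obtain ⟨hG, hD, hJ, hc⟩ := h.b_pr o
  obtain ⟨n, hn, hcn⟩ := o.odd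
  set gh := pr L x (pr L x c) with hgh
  have hcomm : Commute gh c := h1
  have hghn : gh ^ n = 1 := by
    have e1 : gh = ((L x) * (L x))⁻¹ * c * (((L x) * (L x))⁻¹)⁻¹ := by
      rw [hgh]
      simp only [pr, mul_inv_rev, inv_inv, mul_assoc]
    rw [e1, conj_pow, hcn, mul_one, mul_inv_cancel]
  refine ⟨o.Iv, mul_mem hm (inv_mem o.mem), ⟨n, hn, ?_⟩, ?_⟩
  · rw [hcomm.inv_right.mul_pow, hghn, inv_pow, hcn]
    simp
  · have hJx : J x = x := o.Iv.1
    have hLie : (L x)⁻¹ e = x := by rw [Perm.inv_eq_iff_eq]; exact (h.LxLx hJx).symm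
    have hDx : (L x)⁻¹ * J * L x = D L J x := by
      have h2 := h.D_conj (G.inv_mem (h.memL x)) e
      rw [h.D_e, hLie, inv_inv] at h2
      exact h2
    have hDD := h.D_sq x
    have e2 : D L J x * gh * D L J x = gh⁻¹ := by
      have e3 : gh = (L x)⁻¹ * pr L x c * L x := rfl
      rw [e3]
      calc D L J x * ((L x)⁻¹ * pr L x c * L x) * D L J x
          = ((L x)⁻¹ * J * L x) * ((L x)⁻¹ * pr L x c * L x) * ((L x)⁻¹ * J * L x) := by
            rw [hDx]
        _ = (L x)⁻¹ * (J * pr L x c * J) * L x := by group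
        _ = ((L x)⁻¹ * pr L x c * L x)⁻¹ := by rw [hJ]; group
    have e4 : D L J x * c⁻¹ * D L J x = c := by
      have h3 := o.inv
      have hDi : (D L J x)⁻¹ = D L J x := inv_eq_of_mul_eq_one_left hDD
      have h4 := congrArg (fun a : Perm Q => a⁻¹) h3
      simp only [mul_inv_rev, hDi, inv_inv] at h4
      rw [← mul_assoc] at h4
      exact h4
    calc D L J x * (gh * c⁻¹) * D L J x
        = D L J x * gh * (D L J x * D L J x) * c⁻¹ * D L J x := by rw [hDD]; group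
      _ = (D L J x * gh * D L J x) * (D L J x * c⁻¹ * D L J x) := by group
      _ = gh⁻¹ * c := by rw [e2, e4]
      _ = (gh * c⁻¹)⁻¹ := by
        rw [mul_inv_rev, inv_inv]
        exact hcomm.inv_left.eq

end AL

end ALoop
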