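import Pool.Agent.H98.FT.Bas
import Pool.Agent.H98.FT.Kon
import Pool.Agent.H98.FT.Eig
import Pool.Agent.H98.FT.TenA

/-!
(10c) of note 6669 of helper98: `z_y` inverts `d = lam⁻¹ c lam c⁻¹` if `k(y,x) = 1`.
-/

set_option autoImplicit false

namespace ALoop

open Equiv

variable {Q : Type*} {G : Subgroup (Perm Q)} {L : Q → Perm Q} {J : Perm Q} {e : Q}

namespace AL

private theorem pw_conj {M : Type*} [Group M] {a b : M} (ha : a * a = 1) (h : a * b * a = b⁻¹)
    (n : ℕ) : a * b ^ n * a = (b ^ n)⁻¹ := by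
  have ha' : a⁻¹ = a := inv_eq_of_mul_eq_one_left ha
  have h1 : a * b ^ n * a⁻¹ = (a * b * a⁻¹) ^ n := (conj_pow).symm
  rw [ha'] at h1
  rw [h1, h, inv_pow]

/-- conjugates of `c` under inner mappings which fix `x` -/
private theorem KX_conj (h : AL G L J e) {x : Q} {c : Perm Q} (o : KX G L J e x c) {g : Perm Q}
    (hg : g ∈ G) (he : g e = e) (hx : g x = x) : KX G L J e x (g * c * g⁻¹) := by
  have hgI : g ∈ Inn G e := mem_Inn.2 ⟨hg, he⟩
  have hD := (h.D_cent hg x).2 hx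
  obtain ⟨n, hn, hc⟩ := o.odd
  refine ⟨o.Iv, (Inn G e).mul_mem ((Inn G e).mul_mem hgI o.mem) ((Inn G e).inv_mem hgI),
    ⟨n, hn, ?_⟩, ?_⟩
  · rw [conj_pow, hc]; group
  · have hD' : D L J x * g⁻¹ = g⁻¹ * D L J x := by
      calc D L J x * g⁻¹ = g⁻¹ * (g * D L J x) * g⁻¹ := by group
        _ = g⁻¹ * (D L J x * g) * g⁻¹ := by rw [hD]
        _ = g⁻¹ * D L J x := by group
    calc D L J x * (g * c * g⁻¹) * D L J x = D L J x * g * c * (g⁻¹ * D L J x) := by group
      _ = (g * D L J x) * c * (D L J x * g⁻¹) := by rw [← hD', hD]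
      _ = g * (D L J x * c * D L J x) * g⁻¹ := by group
      _ = (g * c * g⁻¹)⁻¹ := by rw [o.inv]; group

/-- a square root in `K_x` -/
private theorem KX_root {x : Q} {c : Perm Q} (h : AL G L J e) (o : KX G L J e x c) :
    ∃ b : Perm Q, KX G L J e x b ∧ b * b = c := by
  obtain ⟨n, ⟨k, hk⟩, hc⟩ := o.odd
  refine ⟨c ^ (k + 1), ⟨o.Iv, (Inn G e).pow_mem o.mem _, ⟨n, ⟨k, hk⟩, ?_⟩, ?_⟩, ?_⟩
  · rw [← pow_mul, mul_comm, pow_mul, hc, one_pow]
  · exact pw_conj (h.D_sq x) o.inv _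
  · rw [← pow_add]
    have : k + 1 + (k + 1) = n + 1 := by omega
    rw [this, pow_succ, hc, one_mul]

private theorem KX_inv {x : Q} {c : Perm Q} (h : AL G L J e) (o : KX G L J e x c) :
    KX G L J e x c⁻¹ := by
  obtain ⟨n, hn, hc⟩ := o.odd
  refine ⟨o.Iv, (Inn G e).inv_mem o.mem, ⟨n, hn, by rw [inv_pow, hc, inv_one]⟩, ?_⟩
  have h1 := o.inv
  have h2 : (D L J x)⁻¹ = D L J x := inv_eq_of_mul_eq_one_left (h.D_sq x)
  calc D L J x * c⁻¹ * D L J x = (D L J x)⁻¹ * c⁻¹ * (D L J x)⁻¹ := by rw [h2]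
    _ = (D L J x * c * D L J x)⁻¹ := by group
    _ = c⁻¹⁻¹ := by rw [h1]

/-- the point of `c⁻¹` is the inverse of the point of `c` -/
private theorem sp_inv (h : AL G L J e) {x : Q} {c : Perm Q} (o : KX G L J e x c) :
    sp L x c⁻¹ = J (sp L x c) := by
  have hx := o.Iv
  obtain ⟨-, -, h3, -, -, -⟩ := h.b_sp o
  rw [← h3]
  unfold sp zz
  have hc := h.comJ c o.mem.1 o.mem.2
  have hDD := h.D_sq x
  have hz1 : (D L J x * J) * (L x)⁻¹ = (L x)⁻¹ * (D L J x * J) := by
    have h5 := h.Lx_z hx.1 hx.2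
    calc (D L J x * J) * (L x)⁻¹ = (L x)⁻¹ * (L x * (D L J x * J)) * (L x)⁻¹ := by group
      _ = (L x)⁻¹ * ((D L J x * J) * L x) * (L x)⁻¹ := by rw [h5]
      _ = (L x)⁻¹ * (D L J x * J) := by group
  have hz2 : (D L J x * J) * c = c⁻¹ * (D L J x * J) := by
    calc (D L J x * J) * c = D L J x * (J * c) := by group
      _ = D L J x * (c * J) := by rw [hc]
      _ = D L J x * c * 1 * J := by group
      _ = D L J x * c * (D L J x * D L J x) * J := by rw [hDD]
      _ = (D L J x * c * D L J x) * (D L J x * J) := by group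
      _ = c⁻¹ * (D L J x * J) := by rw [o.inv]
  have hzx := h.zx_x hx.1 hx.2
  have e1 : (D L J x * J) ((L x)⁻¹ (c x)) = (((D L J x * J) * (L x)⁻¹) * c) x := rfl
  have e2 : ((D L J x * J) * (L x)⁻¹) * c = (L x)⁻¹ * c⁻¹ * (D L J x * J) := by
    rw [hz1, mul_assoc, hz2]; group
  rw [e1, e2, Perm.mul_apply, hzx]
  rfl

/-- (10c): `z_y` inverts `d` if `k(y,x) = 1` -/
theorem ten_inv (h : AL G L J e) {x : Q} {c : Perm Q} (o : KX G L J e x c) {y : Q}
    (hy : Iv J e y) (hk : kk L J y x = 1) :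
    KX G L J e y (pr L x (pr L x c) * c⁻¹) := by
  have hx := o.Iv
  have od := h.ten_d o
  -- `lam`
  have hll : (L x * L x) e = e := by
    rw [Perm.mul_apply, h.Le, h.LxLx hx.1]
  have hlx : (L x * L x) x = x := by
    rw [Perm.mul_apply, h.LxLx hx.1, h.Le]
  have hlG : L x * L x ∈ G := G.mul_mem (h.memL x) (h.memL x)
  have hlG' : (L x * L x)⁻¹ ∈ G := G.inv_mem hlG
  have hll' : (L x * L x)⁻¹ e = e := by rw [Perm.inv_eq_iff_eq]; exact hll.symm
  have hlx' : (L x * L x)⁻¹ x = x := by rw [Perm.inv_eq_iff_eq]; exact hlx.symm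
  have o2 : KX G L J e x (pr L x (pr L x c)) := by
    have h1 := KX_conj h o hlG' hll' hlx'
    have h2 : (L x * L x)⁻¹ * c * ((L x * L x)⁻¹)⁻¹ = pr L x (pr L x c) := by
      unfold pr
      rw [inv_inv, mul_inv_rev]
      simp only [mul_assoc]
    rwa [h2] at h1
  set d := pr L x (pr L x c) * c⁻¹ with hd
  -- `mu = pr d` fixes `y`
  have hmu : pr L x (pr L x (pr L x c)) * (sr L x (pr L x (pr L x c)))⁻¹ = pr L x d := by
    rw [hd]; unfold pr sr; group
  have hmuy : (pr L x d) y = y := by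
    have h1 := h.eight' o2 hy
    rw [hk, hmu] at h1
    have h2 : (pr L x (pr L x (pr L x c)) * pr L x (pr L x c)) * 1 *
        (pr L x (pr L x (pr L x c)) * pr L x (pr L x c))⁻¹ * pr L x d = pr L x d := by group
    rwa [h2] at h1
  obtain ⟨hmG, -, hJm, -⟩ := h.b_pr od
  have hmD := (h.D_cent hmG y).2 hmuy
  have hDy := h.D_sq y
  have hJJ := h.JJ1
  have hDJ := h.Dx_J hy.1
  -- `z_y`
  have hzI : zz L J y ∈ Inn G e := (h.b_zz hy).2.2.1
  have hzz : zz L J y * zz L J y = 1 := (h.b_zz hy).2.2.2.1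
  have hzJ : zz L J y * J = J * zz L J y := (h.b_zz hy).2.2.2.2.2.2
  have hzi : (zz L J y)⁻¹ = zz L J y := inv_eq_of_mul_eq_one_left hzz
  have hzm : zz L J y * pr L x d * zz L J y = (pr L x d)⁻¹ := by
    have h1 : zz L J y = J * D L J y := hDJ
    calc zz L J y * pr L x d * zz L J y = (D L J y * J) * pr L x d * (J * D L J y) := by
          conv_lhs => rw [h1]
          rw [← hDJ]
      _ = D L J y * (J * pr L x d * J) * D L J y := by group
      _ = D L J y * (pr L x d)⁻¹ * D L J y := by rw [hJm]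
      _ = D L J y * (pr L x d)⁻¹ * (D L J y * pr L x d) * (pr L x d)⁻¹ := by group
      _ = D L J y * (pr L x d)⁻¹ * (pr L x d * D L J y) * (pr L x d)⁻¹ := by rw [hmD]
      _ = (D L J y * D L J y) * (pr L x d)⁻¹ := by group
      _ = (pr L x d)⁻¹ := by rw [hDy, one_mul]
  -- the square root
  obtain ⟨b, ob, hb⟩ := KX_root h od
  have hpb : pr L x b * pr L x b = pr L x d := by
    rw [← hb]; unfold pr; group
  obtain ⟨hs1, -, -, -, -, -⟩ := h.b_sp ob
  rw [hpb] at hs1
  -- `z_y s = J s`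
  have hzs : zz L J y (sp L x b) = J (sp L x b) := by
    apply h.D_inj
    rw [← h.D_conj hzI.1, ← h.D_J, hs1, hzi]
    calc zz L J y * (pr L x d * J) * zz L J y = zz L J y * pr L x d * (J * zz L J y) := by group
      _ = (zz L J y * pr L x d * zz L J y) * J := by rw [← hzJ]; group
      _ = (J * pr L x d * J) * J := by rw [hzm, hJm]
      _ = J * (pr L x d * J) * J := by group
  -- `L` and `R` of the point
  obtain ⟨k1, k2⟩ := h.k_one ob
  have obi := KX_inv h ob
  obtain ⟨k3, k4⟩ := h.k_one obi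
  rw [sp_inv h ob] at k3 k4
  have hpi : pr L x b⁻¹ = (pr L x b)⁻¹ := by unfold pr; group
  rw [hpi] at k3 k4
  -- conjugation by `z_y`
  have q1 : zz L J y * L (sp L x b) * zz L J y = L (J (sp L x b)) := by
    have h1 := h.equi _ hzI.1 hzI.2 (sp L x b)
    rwa [hzi, hzs] at h1
  have hzJs : zz L J y (J (sp L x b)) = sp L x b := by
    rw [← hzs]
    have : zz L J y (zz L J y (sp L x b)) = (zz L J y * zz L J y) (sp L x b) := rfl
    rw [this, hzz]; rfl
  have q2 : zz L J y * rt L J (sp L x b) * zz L J y = rt L J (J (sp L x b)) := by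
    unfold rt
    have h1 := h.equi _ hzI.1 hzI.2 (J (sp L x b))
    rw [hzi, hzJs] at h1
    rw [h.JJ, ← h1]
    calc zz L J y * (J * L (J (sp L x b)) * J) * zz L J y
        = (zz L J y * J) * L (J (sp L x b)) * (J * zz L J y) := by group
      _ = (J * zz L J y) * L (J (sp L x b)) * (zz L J y * J) := by rw [hzJ]
      _ = J * (zz L J y * L (J (sp L x b)) * zz L J y) * J := by group
  -- `d = (L s)⁻¹ R s`
  have hdb : d = (L (sp L x b))⁻¹ * rt L J (sp L x b) := by
    rw [k1, k2]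
    calc d = b * b := hb.symm
      _ = b * (pr L x b)⁻¹ * (pr L x b * b) := by group
      _ = (pr L x b * b⁻¹)⁻¹ * (pr L x b * b) := by rw [mul_inv_rev, inv_inv]
  have hzd : zz L J y * d * zz L J y = d⁻¹ := by
    have e1 : zz L J y * d * zz L J y = (L (J (sp L x b)))⁻¹ * rt L J (J (sp L x b)) := by
      rw [← q1, ← q2, hdb]
      calc zz L J y * ((L (sp L x b))⁻¹ * rt L J (sp L x b)) * zz L J y
          = zz L J y * (L (sp L x b))⁻¹ * 1 * rt L J (sp L x b) * zz L J y := by group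
        _ = zz L J y * (L (sp L x b))⁻¹ * (zz L J y * zz L J y) * rt L J (sp L x b) *
            zz L J y := by rw [hzz]
        _ = (zz L J y * (L (sp L x b))⁻¹ * zz L J y) *
            (zz L J y * rt L J (sp L x b) * zz L J y) := by group
        _ = ((zz L J y)⁻¹ * (L (sp L x b))⁻¹ * (zz L J y)⁻¹) *
            (zz L J y * rt L J (sp L x b) * zz L J y) := by rw [hzi]
        _ = _ := by group
    rw [e1, k3, k4, ← hb, inv_inv]
    group
  have hJd := h.comJ d od.mem.1 od.mem.2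
  refine ⟨hy, od.mem, od.odd, ?_⟩
  calc D L J y * d * D L J y = D L J y * d * (J * J) * D L J y := by rw [hJJ, mul_one]
    _ = D L J y * (d * J) * (J * D L J y) := by group
    _ = (D L J y * J) * d * (D L J y * J) := by rw [hJd, ← hDJ]; group
    _ = d⁻¹ := hzd

end AL

end ALoop
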