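import Pool.Agent.H98.FT.Bas
import Pool.Agent.H98.FT.Sev
import Pool.Agent.H98.FT.TenA
import Pool.Agent.H98.FT.TenB

/-!
(10d) of note 6669: `d = lam^-1 c lam c^-1` commutes with `w d w` for all `w = z_s`.
-/

set_option autoImplicit false

namespace ALoop

open Equiv

variable {Q : Type*} {G : Subgroup (Perm Q)} {L : Q → Perm Q} {J : Perm Q} {e : Q}

namespace AL

/-- powers of elements of `K_x` -/
private theorem kx_pow (h : AL G L J e) {x : Q} {g : Perm Q} (o : KX G L J e x g) (j : ℕ) :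
    KX G L J e x (g ^ j) := by
  obtain ⟨n, hn, hgn⟩ := o.odd
  have hDD := h.D_sq x
  refine ⟨o.Iv, (Inn G e).pow_mem o.mem j, ⟨n, hn, ?_⟩, ?_⟩
  · rw [← pow_mul, mul_comm, pow_mul, hgn, one_pow]
  · induction j with
    | zero => simp [hDD]
    | succ j ih =>
      calc D L J x * g ^ (j + 1) * D L J x
          = D L J x * g ^ j * (D L J x * D L J x) * g * D L J x := by
            rw [hDD, mul_one, pow_succ]; group
        _ = (D L J x * g ^ j * D L J x) * (D L J x * g * D L J x) := by group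
        _ = (g ^ j)⁻¹ * g⁻¹ := by rw [ih, o.inv]
        _ = (g ^ (j + 1))⁻¹ := by rw [pow_succ']; group

/-- `d` commutes with all of `K_x` -/
private theorem ten_w1 (h : AL G L J e) {x : Q} {c : Perm Q} (o : KX G L J e x c)
    {g : Perm Q} (og : KX G L J e x g) :
    (pr L x (pr L x c) * c⁻¹) * g = g * (pr L x (pr L x c) * c⁻¹) := by
  obtain ⟨n, ⟨m, hm⟩, hgn⟩ := og.odd
  have od := h.ten_d o
  set d := pr L x (pr L x c) * c⁻¹ with hd
  have oe := kx_pow h og (m + 1)
  have hee : g ^ (m + 1) * g ^ (m + 1) = g := by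
    rw [← pow_add]
    have h1 : m + 1 + (m + 1) = n + 1 := by omega
    rw [h1, pow_succ, hgn, one_mul]
  obtain ⟨b1, b2, -, -⟩ := h.b_cx oe
  have h7 := h.seven_a oe
  have h10 := (h.ten_inv o b1 h7).inv
  rw [b2, hee, ← hd] at h10
  have hDD := h.D_sq x
  have h1 : D L J x * d * D L J x = d⁻¹ := od.inv
  have h2 : D L J x * g * D L J x = g⁻¹ := og.inv
  have h3 : g * d⁻¹ * g⁻¹ = d⁻¹ := by
    calc g * d⁻¹ * g⁻¹ = g * (D L J x * d * D L J x) * (D L J x * g * D L J x) := by rw [h1, h2]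
      _ = g * D L J x * d * (D L J x * D L J x) * g * D L J x := by group
      _ = g * D L J x * d * (g * D L J x) := by rw [hDD]; group
      _ = d⁻¹ := h10
  have h4 : g * d⁻¹ = d⁻¹ * g := by
    calc g * d⁻¹ = (g * d⁻¹ * g⁻¹) * g := by group
      _ = d⁻¹ * g := by rw [h3]
  calc d * g = d * (g * d⁻¹) * d := by group
    _ = d * (d⁻¹ * g) * d := by rw [h4]
    _ = g * d := by group

/-- (10d): `d` commutes with `w d w` for all `w = z_s` -/
theorem ten_w (h : AL G L J e) {x : Q} {c : Perm Q} (o : KX G L J e x c) {s : Q}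
    (hs : Iv J e s) :
    (pr L x (pr L x c) * c⁻¹) * (zz L J s * (pr L x (pr L x c) * c⁻¹) * zz L J s) =
      (zz L J s * (pr L x (pr L x c) * c⁻¹) * zz L J s) * (pr L x (pr L x c) * c⁻¹) := by
  obtain ⟨-, -, z1, z2, -, -, z3⟩ := h.b_zz hs
  have hx := o.Iv
  have od := h.ten_d o
  have h7 := h.seven_b hx hs
  have hy : Iv J e (zz L J s x) := by
    refine ⟨?_, ?_⟩
    · rw [← Perm.mul_apply, ← z3, Perm.mul_apply, hx.1]
    · intro h1
      apply hx.2
      apply (zz L J s).injective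
      exact h1.trans (show zz L J s e = e from z1.2).symm
  have o2 := h.ten_inv o hy h7
  apply ten_w1 h o
  obtain ⟨n, hn, hdn⟩ := od.odd
  have hzi : (zz L J s)⁻¹ = zz L J s := inv_eq_of_mul_eq_one_left z2
  refine ⟨hx, (Inn G e).mul_mem ((Inn G e).mul_mem z1 od.mem) z1, ⟨n, hn, ?_⟩, ?_⟩
  · have h1 := conj_pow (i := n) (a := zz L J s) (b := pr L x (pr L x c) * c⁻¹)
    rw [hzi, hdn, mul_one, z2] at h1
    exact h1
  · have h1 := h.D_conj z1.1 x
    rw [hzi] at h1
    have h2 := o2.inv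
    rw [← h1] at h2
    have key : ∀ a b : Perm Q, a⁻¹ = a → a * b⁻¹ * a = (a * b * a)⁻¹ := by
      intro a b ha
      rw [mul_inv_rev, mul_inv_rev, ha, mul_assoc]
    set z := zz L J s
    set d := pr L x (pr L x c) * c⁻¹
    calc D L J x * (z * d * z) * D L J x
        = (z * z) * D L J x * (z * d * z) * D L J x * (z * z) := by rw [z2]; group
      _ = z * (z * D L J x * z * d * (z * D L J x * z)) * z := by group
      _ = z * d⁻¹ * z := by rw [h2]
      _ = (z * d * z)⁻¹ := key z d hzi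

end AL

end ALoop
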