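import Pool.Agent.H98.FT.TenA
import Pool.Agent.H98.FT.TenC
import Pool.Agent.H53.AL.Claim

/-!
(10e): `L_x^2` commutes with `c`: the elements `d` of prime order generate a normal `p`-subgroup of
the inner mapping group (helper53, helper85: Claim), which is trivial by `no_solvable`.
-/

set_option autoImplicit false

namespace ALoop

open Equiv

variable {Q : Type*} {G : Subgroup (Perm Q)} {L : Q → Perm Q} {J : Perm Q} {e : Q}

private theorem tenE_pr_mul (x : Q) (a b : Perm Q) : pr L x (a * b) = pr L x a * pr L x b := by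
  unfold pr
  group

private theorem tenE_pr_pow (x : Q) (a : Perm Q) (n : ℕ) : pr L x (a ^ n) = pr L x a ^ n := by
  induction n with
  | zero => unfold pr; group
  | succ n ih => rw [pow_succ, pow_succ, tenE_pr_mul, ih]

namespace AL

private theorem tenE_comm (h : AL G L J e) {x : Q} {c : Perm Q} (o : KX G L J e x c) :
    Commute (pr L x (pr L x c)) c := by
  have h1 := h.ten_com o
  show pr L x (pr L x c) * c = c * pr L x (pr L x c)
  have h2 : pr L x (sr L x c) = c := by unfold pr sr; group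
  have h3 := congrArg (pr L x) h1
  rw [tenE_pr_mul, tenE_pr_mul, h2] at h3
  exact h3

private theorem tenE_pow (h : AL G L J e) {x : Q} {c : Perm Q} (o : KX G L J e x c) (j : ℕ) :
    KX G L J e x (c ^ j) := by
  obtain ⟨n, hn, hcn⟩ := o.odd
  refine ⟨o.Iv, (Inn G e).pow_mem o.mem j, ⟨n, hn, ?_⟩, ?_⟩
  · rw [← pow_mul, mul_comm, pow_mul, hcn, one_pow]
  · have h1 : (D L J x)⁻¹ = D L J x := inv_eq_of_mul_eq_one_left (h.D_sq x)
    have h2 : D L J x * c ^ j * D L J x = (D L J x * c * D L J x) ^ j := by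
      have h3 := conj_pow (i := j) (a := D L J x) (b := c)
      rw [h1] at h3
      exact h3.symm
    rw [h2, o.inv, inv_pow]

/-- `d` of `c^j` is `d^j` -/
private theorem tenE_d_pow (h : AL G L J e) {x : Q} {c : Perm Q} (o : KX G L J e x c) (j : ℕ) :
    pr L x (pr L x (c ^ j)) * (c ^ j)⁻¹ = (pr L x (pr L x c) * c⁻¹) ^ j := by
  rw [tenE_pr_pow, tenE_pr_pow, (h.tenE_comm o).inv_right.mul_pow, inv_pow]

private theorem tenE_prime [Finite Q] (h : AL G L J e) (hcardQ : 2 ∣ Nat.card Q) {x : Q}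
    {c : Perm Q} (o : KX G L J e x c) {p : ℕ} (hp : p.Prime) (hp2 : p ≠ 2)
    (hd : (pr L x (pr L x c) * c⁻¹) ^ p = 1) : pr L x (pr L x c) * c⁻¹ = 1 := by
  have : Fact p.Prime := ⟨hp⟩
  set d := pr L x (pr L x c) * c⁻¹ with hdef
  have od : KX G L J e x d := h.ten_d o
  have hEsub : ∀ w : Inn G e, w ∈ {w : Inn G e | (w : Perm Q) ∈ EE L J e} → w * w = 1 := by
    intro w hw
    apply Subtype.ext
    exact h.EE_sq hw
  have hEc : ∀ w ∈ {w : Inn G e | (w : Perm Q) ∈ EE L J e}, ∀ g : Inn G e,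
      g * w * g⁻¹ ∈ {w : Inn G e | (w : Perm Q) ∈ EE L J e} := by
    intro w hw g
    exact h.EE_conj hw g.2
  have hJJ := h.JJ1
  have hxE : D L J x * J ∈ EE L J e := ⟨x, o.Iv.1, o.Iv.2, rfl⟩
  have hdJ := h.comJ d od.mem.1 od.mem.2
  have hDJ : D L J x * J = J * D L J x := h.Dx_J o.Iv.1
  obtain ⟨N, hN, hNp, hbN⟩ := Pool.Agent.H53.AL.claim_normal p hp2
    {w : Inn G e | (w : Perm Q) ∈ EE L J e} hEsub hEc ⟨d, od.mem⟩
    ⟨D L J x * J, h.EE_Inn hxE⟩ (Subtype.ext hd) hxE
    (by
      apply Subtype.ext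
      show D L J x * J * d * (D L J x * J) = d⁻¹
      calc D L J x * J * d * (D L J x * J) = D L J x * (J * d) * (D L J x * J) := by group
        _ = D L J x * (d * J) * (J * D L J x) := by rw [← hdJ, hDJ]
        _ = D L J x * d * (J * J) * D L J x := by group
        _ = d⁻¹ := by rw [hJJ, mul_one, od.inv])
    (by
      intro w hw
      obtain ⟨s, hJs, hse, hws⟩ := hw
      apply Subtype.ext
      have h1 := h.ten_w o (s := s) ⟨hJs, hse⟩
      unfold zz at h1
      rw [← hws] at h1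
      exact h1)
  have h2 : N = ⊥ := by
    apply h.no_solvable hcardQ N hN
    have := hNp.isNilpotent
    infer_instance
  rw [h2, Subgroup.mem_bot] at hbN
  exact congrArg Subtype.val hbN

/-- (10e): `L_x^2` commutes with `c` -/
theorem ten_lam [Finite Q] (h : AL G L J e) (hcardQ : 2 ∣ Nat.card Q) {x : Q} {c : Perm Q}
    (o : KX G L J e x c) : L x * L x * c = c * (L x * L x) := by
  set d := pr L x (pr L x c) * c⁻¹ with hdef
  have od : KX G L J e x d := h.ten_d o
  have key : d = 1 := by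
    by_contra hd1
    obtain ⟨n, hn, hdn⟩ := od.odd
    have h1 : orderOf d ≠ 1 := fun h2 => hd1 (orderOf_eq_one_iff.1 h2)
    obtain ⟨p, hp, hpd⟩ := Nat.exists_prime_and_dvd h1
    have hp2 : p ≠ 2 := by
      rintro rfl
      have h3 : 2 ∣ n := hpd.trans (orderOf_dvd_of_pow_eq_one hdn)
      exact (Nat.not_even_iff_odd.2 hn) (even_iff_two_dvd.2 h3)
    have h0 : 0 < orderOf d := orderOf_pos d
    have h4 : (d ^ (orderOf d / p)) ^ p = 1 := by
      rw [← pow_mul, Nat.div_mul_cancel hpd, pow_orderOf_eq_one]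
    have h5 := h.tenE_prime hcardQ (h.tenE_pow o (orderOf d / p)) hp hp2 (by
      rw [h.tenE_d_pow o]
      exact h4)
    rw [h.tenE_d_pow o] at h5
    have h6 : orderOf d ∣ orderOf d / p := orderOf_dvd_of_pow_eq_one h5
    have h7 : orderOf d / p < orderOf d := Nat.div_lt_self h0 hp.one_lt
    have h8 : 0 < orderOf d / p := Nat.div_pos (Nat.le_of_dvd h0 hpd) hp.pos
    exact absurd (Nat.le_of_dvd h8 h6) (by omega)
  have h2 : pr L x (pr L x c) = c := by
    rw [hdef] at key
    exact mul_inv_eq_one.1 key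
  unfold pr at h2
  calc L x * L x * c = L x * L x * ((L x)⁻¹ * ((L x)⁻¹ * c * L x) * L x) := by rw [h2]
    _ = c * (L x * L x) := by group

end AL

end ALoop
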