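import Pool.Agent.H98.FT.Bas
import Pool.Agent.H98.FT.Kon
import Pool.Agent.H98.FT.Nin
import Pool.Agent.H98.FT.Cont
import Pool.Agent.H98.FT.TenE
import Pool.Agent.H98.FT.Exi

/-!
The theorem: a finite simple automorphic loop of even order with `y y ≠ e` for some `y` is
associative.
-/

set_option autoImplicit false

namespace ALoop

open Equiv

variable {Q : Type*} {G : Subgroup (Perm Q)} {L : Q → Perm Q} {J : Perm Q} {e : Q}

namespace AL

/-- THE THEOREM -/
theorem assoc_of_even [Finite Q] (h : AL G L J e) (hcardQ : 2 ∣ Nat.card Q) : Assoc L := by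
  by_contra hna
  obtain ⟨x, c, hc1, o⟩ := h.exists_KX hcardQ
  have hl := h.ten_lam hcardQ o
  have hcG : c ∈ G := o.mem.1
  have hge : (pr L x c * c) e = e :=
    h.final_con hna o.Iv (G.mul_mem (h.b_pr o).1 hcG) fun y hy => h.nine o hl hy
  have hs : sp L x c = e := by
    have h1 : rt L J (sp L x c) e = L e (sp L x c) := h.R_apply e (sp L x c)
    rw [(h.k_one o).2, hge, h.Le1, Perm.one_apply] at h1
    exact h1.symm
  have hcx : c x = x := by
    have h1 : (L x)⁻¹ (c x) = e := hs
    rw [Perm.inv_eq_iff_eq] at h1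
    rw [h1, h.Le]
  have hcc : c * c = 1 := by
    have h1 := (h.b_cx o).2.1
    rw [hcx] at h1
    exact (mul_eq_right.1 h1.symm)
  obtain ⟨n, hn, hcn⟩ := o.odd
  apply hc1
  obtain ⟨k, rfl⟩ := hn
  rw [pow_succ, pow_mul, pow_two, hcc, one_pow, one_mul] at hcn
  exact hcn

end AL

end ALoop
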