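import Pool.Agent.H98.FT.SixA

/-!
# FT-SixB

(6b): `y * (x \\ y)^-1 = x` for involutions `x`, `y`.
-/

set_option autoImplicit false

namespace ALoop

open Equiv

variable {Q : Type*} {G : Subgroup (Perm Q)} {L : Q → Perm Q} {J : Perm Q} {e : Q}

namespace AL

theorem six_Rx (h : AL G L J e) {x : Q} (hx : J x = x) (q : Q) : (J * L x * J) q = L q x := by
  have h1 := h.R_apply q x
  rwa [hx] at h1

theorem six_Dx (h : AL G L J e) {x : Q} (hx : J x = x) : (L x)⁻¹ * J * L x = D L J x := by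
  have h1 := h.D_conj (G.inv_mem (h.memL x)) e
  have h2 : (L x)⁻¹ e = x := by rw [Perm.inv_eq_iff_eq]; exact (h.LxLx hx).symm
  rw [h.D_e, h2, inv_inv] at h1
  exact h1

/-- `D x` fixes `x \\ y` -/
theorem six_Dp (h : AL G L J e) {x y : Q} (hx : J x = x) (hy : J y = y) (hxe : x ≠ e) :
    D L J x ((L x)⁻¹ y) = (L x)⁻¹ y := by
  set p := (L x)⁻¹ y with hp
  have hDx := h.six_Dx hx
  have hDxi : D L J x * D L J x = 1 := h.D_sq x
  have hDp : (L x)⁻¹ * D L J y * L x = D L J p := by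
    have h1 := h.D_conj (G.inv_mem (h.memL x)) y
    rw [inv_inv] at h1
    exact h1
  have h1 : D L J x * D L J p * D L J x = D L J p := by
    rw [← hDp]
    have h2 : J * D L J y * J = D L J y := by rw [h.D_J, hy]
    calc D L J x * ((L x)⁻¹ * D L J y * L x) * D L J x
        = ((L x)⁻¹ * J * L x) * ((L x)⁻¹ * D L J y * L x) * ((L x)⁻¹ * J * L x) := by rw [hDx]
      _ = (L x)⁻¹ * (J * D L J y * J) * L x := by group
      _ = (L x)⁻¹ * D L J y * L x := by rw [h2]
  have hzG : D L J x * J ∈ G := h.Z_mem (h.zx_mem hx hxe)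
  have h3 : (D L J x * J) (J p) = p := by
    apply h.D_inj
    rw [← h.D_conj hzG, ← h.D_J]
    have hzi : (D L J x * J)⁻¹ = D L J x * J :=
      inv_eq_of_mul_eq_one_left (h.Z_sq (h.zx_mem hx hxe))
    rw [hzi]
    calc D L J x * J * (J * D L J p * J) * (D L J x * J)
        = D L J x * (J * J) * D L J p * (J * D L J x) * J := by group
      _ = D L J x * (J * J) * D L J p * (D L J x * J) * J := by rw [← h.Dx_J hx]
      _ = D L J x * (J * J) * D L J p * D L J x * (J * J) := by group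
      _ = D L J p := by rw [h.JJ1, mul_one, mul_one, h1]
  have h4 : (D L J x * J) (J p) = D L J x p := by
    rw [Perm.mul_apply, h.JJ]
  rw [← h4, h3]

/-- the inner mapping `(L y)⁻¹ * L x * L (x \\ y)` fixes `x` and `y` -/
theorem six_kap (h : AL G L J e) {x y : Q} (hx : J x = x) (hy : J y = y) (hxe : x ≠ e) :
    L y (J ((L x)⁻¹ y)) = x := by
  set p := (L x)⁻¹ y with hp
  have hDp : D L J x p = p := h.six_Dp hx hy hxe
  have hDx := h.six_Dx hx
  have hLxp : L x p = y := by rw [hp, apply_inv']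
  have hzz := h.Lx_z hx hxe
  have hRx := h.zt_eq (x := x) hx
  -- `L x (L p x) = L y x`
  have hflex : L x (L p x) = L y x := by
    rw [← h.six_Rx hx p, ← h.six_Rx hx y, ← hLxp]
    have h1 : L x * (J * L x * J) = (J * L x * J) * L x := by
      rw [hRx]
      calc L x * (D L J x * J * L x) = (L x * (D L J x * J)) * L x := by group
        _ = D L J x * J * L x * L x := by rw [← hzz]
    exact congrArg (fun f : Perm Q => f p) h1
  set κ := (L y)⁻¹ * L x * L p with hκ
  have hκG : κ ∈ G := G.mul_mem (G.mul_mem (G.inv_mem (h.memL y)) (h.memL x)) (h.memL p)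
  have hκe : κ e = e := by
    show (L y)⁻¹ (L x (L p e)) = e
    rw [h.Le, hLxp, Perm.inv_eq_iff_eq, h.Le]
  have hκx : κ x = x := by
    show (L y)⁻¹ (L x (L p x)) = x
    rw [hflex, inv_apply']
  set ρ := D L J y * D L J x with hρ
  have hρG : ρ ∈ G := h.D_mul_mem y x
  have hDxe : D L J x e = e := by
    rw [← hDx]
    show (L x)⁻¹ (J (L x e)) = e
    rw [h.Le, hx, Perm.inv_eq_iff_eq, h.Le]
  have hDye : D L J y e = e := by
    rw [← h.six_Dx hy]
    show (L y)⁻¹ (J (L y e)) = e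
    rw [h.Le, hy, Perm.inv_eq_iff_eq, h.Le]
  have hρe : ρ e = e := by
    show D L J y (D L J x e) = e
    rw [hDxe, hDye]
  -- the formula for `ρ⁻¹`
  have hρi : ρ⁻¹ = D L J x * D L J y := by
    have ix : (D L J x)⁻¹ = D L J x := inv_eq_of_mul_eq_one_left (h.D_sq x)
    have iy : (D L J y)⁻¹ = D L J y := inv_eq_of_mul_eq_one_left (h.D_sq y)
    rw [hρ, mul_inv_rev, ix, iy]
  have hσ : L x * ρ * (L x)⁻¹ = L y * ρ * (L y)⁻¹ := h.six_rhoD hx hy
  have hform : L p * D L J x * (L p)⁻¹ * D L J x = ρ⁻¹ := by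
    have e1 : L p * D L J x * (L p)⁻¹ = (L x)⁻¹ * L y * D L J x * (L y)⁻¹ * L x := by
      have h1 := h.D_conj (h.memL p) x
      have h2 := h.D_conj (G.mul_mem (G.inv_mem (h.memL x)) (h.memL y)) x
      have h3 : ((L x)⁻¹ * L y) x = L p x := by
        show (L x)⁻¹ (L y x) = L p x
        rw [← hflex, inv_apply']
      rw [h3] at h2
      rw [h1, ← h2]; group
    have e2 : D L J x = (L x)⁻¹ * L y * D L J y * (L y)⁻¹ * L x := by
      have h1 : L y * D L J y * (L y)⁻¹ = J := by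
        have h2 := h.D_conj (h.memL y) y
        rw [h.LxLx hy, h.D_e] at h2
        exact h2
      calc D L J x = (L x)⁻¹ * J * L x := hDx.symm
        _ = (L x)⁻¹ * (L y * D L J y * (L y)⁻¹) * L x := by rw [h1]
        _ = _ := by group
    calc L p * D L J x * (L p)⁻¹ * D L J x
        = (L x)⁻¹ * L y * D L J x * (L y)⁻¹ * L x * D L J x := by rw [e1]
      _ = (L x)⁻¹ * L y * D L J x * (L y)⁻¹ * L x *
            ((L x)⁻¹ * L y * D L J y * (L y)⁻¹ * L x) := by rw [← e2]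
      _ = (L x)⁻¹ * (L y * (D L J x * D L J y) * (L y)⁻¹) * L x := by group
      _ = (L x)⁻¹ * (L y * ρ * (L y)⁻¹)⁻¹ * L x := by rw [← hρi]; group
      _ = (L x)⁻¹ * (L x * ρ * (L x)⁻¹)⁻¹ * L x := by rw [hσ]
      _ = ρ⁻¹ := by group
  have hρp : ρ p = p := by
    have h1 : ρ⁻¹ p = p := by
      rw [← hform]
      show L p (D L J x ((L p)⁻¹ (D L J x p))) = p
      have h2 : (L p)⁻¹ p = e := by rw [Perm.inv_eq_iff_eq, h.Le]
      rw [hDp, h2, hDxe, h.Le]
    have h2 := (Perm.inv_eq_iff_eq.1 h1)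
    exact h2.symm
  have hρL : ρ * L p = L p * ρ := h.comL hρG hρe hρp
  have hκρ : κ * ρ = ρ * κ := by
    have h1 : (L y)⁻¹ * L x * ρ = ρ * ((L y)⁻¹ * L x) := by
      calc (L y)⁻¹ * L x * ρ = (L y)⁻¹ * (L x * ρ * (L x)⁻¹) * L x := by group
        _ = (L y)⁻¹ * (L y * ρ * (L y)⁻¹) * L x := by rw [hσ]
        _ = ρ * ((L y)⁻¹ * L x) := by group
    calc κ * ρ = (L y)⁻¹ * L x * (L p * ρ) := by rw [hκ]; group
      _ = ((L y)⁻¹ * L x * ρ) * L p := by rw [← hρL]; group
      _ = ρ * κ := by rw [h1, hκ]; group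
  have hκDx : κ * D L J x = D L J x * κ := (h.D_cent hκG x).2 hκx
  have hκDy : κ * D L J y = D L J y * κ := by
    have h1 : D L J y = ρ * D L J x := by
      rw [hρ, mul_assoc, h.D_sq, mul_one]
    calc κ * D L J y = (κ * ρ) * D L J x := by rw [h1]; group
      _ = ρ * (κ * D L J x) := by rw [hκρ]; group
      _ = D L J y * κ := by rw [hκDx, h1]; group
  have hκy : κ y = y := (h.D_cent hκG y).1 hκDy
  have hκL : κ * L x = L x * κ := h.comL hκG hκe hκx
  have hκp : κ p = p := by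
    apply (L x).injective
    have h1 : (L x * κ) p = (κ * L x) p := by rw [hκL]
    have h2 : (κ * L x) p = κ (L x p) := rfl
    have h3 : (L x * κ) p = L x (κ p) := rfl
    rw [← h3, h1, h2, hLxp, hκy]
  have hκJp : κ (J p) = J p := by
    have h1 : (κ * J) p = (J * κ) p := by rw [h.comJ κ hκG hκe]
    have h2 : (κ * J) p = κ (J p) := rfl
    have h3 : (J * κ) p = J (κ p) := rfl
    rw [← h2, h1, h3, hκp]
  have hκJp2 : κ (J p) = (L y)⁻¹ x := by
    show (L y)⁻¹ (L x (L p (J p))) = (L y)⁻¹ x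
    rw [h.LJ, h.Le]
  rw [← hκJp, hκJp2, apply_inv']

/-- (6b): `y * (x \ y)^-1 = x` -/
theorem six_p (h : AL G L J e) {x y : Q} (hx : Iv J e x) (hy : Iv J e y) :
    L y (J ((L x)⁻¹ y)) = x := h.six_kap hx.1 hy.1 hx.2

end AL

end ALoop
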