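import Pool.Agent.H98.FT.Def

/-!
All statements (with sorry; NOT imported by any result). `(h : AL G L J e)`.
-/

set_option autoImplicit false
namespace ALoop
open Equiv
variable {Q : Type*} {G : Subgroup (Perm Q)} {L : Q → Perm Q} {J : Perm Q} {e : Q}
namespace AL

/-! ### Bas.lean -/

/-- B1 (key_comm): `c'` -/
theorem b_pr (h : AL G L J e) {x : Q} {c : Perm Q} (o : KX G L J e x c) :
    pr L x c ∈ G ∧ pr L x c * D L J x = D L J x * pr L x c ∧ J * pr L x c * J = (pr L x c)⁻¹ ∧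
    pr L x c * c = c * pr L x c := by sorry

/-- B2: `D (c x) = c^2 D x`, `L (c x) = L x (c' c^-1)`, `R (c x) = R x (c' c)^-1`, `J (c x) = c x` -/
theorem b_cx (h : AL G L J e) {x : Q} {c : Perm Q} (o : KX G L J e x c) :
    Iv J e (c x) ∧ D L J (c x) = c * c * D L J x ∧ L (c x) = L x * (pr L x c * c⁻¹) ∧
    rt L J (c x) = rt L J x * (pr L x c * c)⁻¹ := by sorry

/-- B3: the point `s = x \ (c x)`: `D s = c'^2 J`, `c s = s`, `z_x s = J s`, `L x s = c x`,
`L s x = c^-1 x`, `L s (c x) = x` -/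
theorem b_sp (h : AL G L J e) {x : Q} {c : Perm Q} (o : KX G L J e x c) :
    D L J (sp L x c) = pr L x c * pr L x c * J ∧ c (sp L x c) = sp L x c ∧
    zz L J x (sp L x c) = J (sp L x c) ∧ L x (sp L x c) = c x ∧
    L (sp L x c) x = c⁻¹ x ∧ L (sp L x c) (c x) = x := by sorry

/-- B4: `R_x = z_x L_x = L_x z_x`, `z_x` in `Inn`, `z_x^2 = 1`, `J L_x J = R_x` -/
theorem b_zz (h : AL G L J e) {x : Q} (hx : Iv J e x) :
    rt L J x = zz L J x * L x ∧ rt L J x = L x * zz L J x ∧ zz L J x ∈ Inn G e ∧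
    zz L J x * zz L J x = 1 ∧ J * L x * J = rt L J x ∧ rt L J x = J * L x * J ∧
    zz L J x * J = J * zz L J x := by sorry

/-! ### Zer.lean: (0) -/

/-- (0): `k = L_(cx)^-1 L_x L_s` -/
theorem zero_k (h : AL G L J e) {x : Q} {c : Perm Q} (o : KX G L J e x c) :
    ∃ k : Perm Q, k ∈ Inn G e ∧ k x = x ∧ k (sp L x c) = sp L x c ∧
    k * c = c * k ∧ k * pr L x c = pr L x c * k ∧
    L (sp L x c) = pr L x c * c⁻¹ * k ∧ rt L J (sp L x c) = pr L x c * c * k := by sorry

/-! ### One.lean: (1) -/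

/-- (1): `w = c' c` commutes with `D w D` -/
theorem one_w (h : AL G L J e) {x : Q} {c : Perm Q} (o : KX G L J e x c) (q : Q) :
    (pr L x c * c) * (D L J q * (pr L x c * c) * D L J q) =
      (D L J q * (pr L x c * c) * D L J q) * (pr L x c * c) := by sorry

/-! ### Kon.lean: (2), (3) -/

/-- (3): `L_s = c' c^-1`, `R_s = c' c` -/
theorem k_one (h : AL G L J e) {x : Q} {c : Perm Q} (o : KX G L J e x c) :
    L (sp L x c) = pr L x c * c⁻¹ ∧ rt L J (sp L x c) = pr L x c * c := by sorry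

/-! ### Fou.lean: (4) -/

/-- (4): `d_q = L_q^-1 R_s L_q R_s^-1` -/
theorem four_d (h : AL G L J e) {x : Q} {c : Perm Q} (o : KX G L J e x c) (q : Q) :
    (L q)⁻¹ * (pr L x c * c) * L q * (pr L x c * c)⁻¹ ∈ Inn G e ∧
    ((L q)⁻¹ * (pr L x c * c) * L q * (pr L x c * c)⁻¹) (sp L x c) = sp L x c ∧
    ((L q)⁻¹ * (pr L x c * c) * L q * (pr L x c * c)⁻¹) * (pr L x c * c) =
      (pr L x c * c) * ((L q)⁻¹ * (pr L x c * c) * L q * (pr L x c * c)⁻¹) ∧
    ∃ n : ℕ, Odd n ∧ ((L q)⁻¹ * (pr L x c * c) * L q * (pr L x c * c)⁻¹) ^ n = 1 := by sorry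

/-! ### Six.lean: (6) -/

/-- (6a): `rho = z_y z_x`, `L_x rho L_x^-1 = L_y rho L_y^-1`, and `rho` commutes with it -/
theorem six_rho (h : AL G L J e) {x y : Q} (hx : Iv J e x) (hy : Iv J e y) :
    sr L x (zz L J y * zz L J x) = sr L y (zz L J y * zz L J x) ∧
    (zz L J y * zz L J x) * sr L x (zz L J y * zz L J x) =
      sr L x (zz L J y * zz L J x) * (zz L J y * zz L J x) := by sorry

/-- (6b): `y * (x \ y)^-1 = x` -/
theorem six_p (h : AL G L J e) {x y : Q} (hx : Iv J e x) (hy : Iv J e y) :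
    L y (J ((L x)⁻¹ y)) = x := by sorry

/-- (6c): `k(y,x)` is an inner mapping which fixes `x` and `y` -/
theorem six_k (h : AL G L J e) {x y : Q} (hx : Iv J e x) (hy : Iv J e y) :
    kk L J y x ∈ Inn G e ∧ kk L J y x x = x ∧ kk L J y x y = y := by sorry

/-! ### Sev.lean: (7) -/

/-- (7a) -/
theorem seven_a (h : AL G L J e) {x : Q} {c : Perm Q} (o : KX G L J e x c) :
    kk L J (c x) x = 1 := by sorry

/-- (7b) -/
theorem seven_b (h : AL G L J e) {x s : Q} (hx : Iv J e x) (hs : Iv J e s) :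
    kk L J (zz L J s x) x = 1 := by sorry

/-! ### Eig.lean: (8) -/

/-- (8): with `w = c' c`, `mu = c' c*^-1`, `k = k(y,x)`, `d_y = L_y^-1 w L_y w^-1`:
`k(y, c x) = (L_y d_y L_y^-1)^-1 (w k w^-1) mu` -/
theorem eight (h : AL G L J e) {x : Q} {c : Perm Q} (o : KX G L J e x c) {y : Q}
    (hy : Iv J e y) :
    kk L J y (c x) = (L y * ((L y)⁻¹ * (pr L x c * c) * L y * (pr L x c * c)⁻¹) * (L y)⁻¹)⁻¹ *
      ((pr L x c * c) * kk L J y x * (pr L x c * c)⁻¹) * (pr L x c * (sr L x c)⁻¹) := by sorry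

/-- (8'): `w k w^-1 mu` fixes `y` -/
theorem eight' (h : AL G L J e) {x : Q} {c : Perm Q} (o : KX G L J e x c) {y : Q}
    (hy : Iv J e y) :
    ((pr L x c * c) * kk L J y x * (pr L x c * c)⁻¹ * (pr L x c * (sr L x c)⁻¹)) y = y := by sorry

/-! ### Nin.lean: (9) -/

/-- (9): if `L_x^2` commutes with `c` then `w` commutes with `L_y` for all involutions `y` -/
theorem nine (h : AL G L J e) {x : Q} {c : Perm Q} (o : KX G L J e x c)
    (hl : L x * L x * c = c * (L x * L x)) {y : Q} (hy : Iv J e y) :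
    (pr L x c * c) * L y = L y * (pr L x c * c) := by sorry

/-! ### Con.lean: the final contradiction -/

/-- (9'): an element of `G` which commutes with all `L_y`, `y` an involution, fixes `e` -/
theorem final_con [Finite Q] (h : AL G L J e) (hna : ¬ Assoc L) {x : Q} (hx : Iv J e x)
    {g : Perm Q} (hg : g ∈ G) (hc : ∀ y, Iv J e y → g * L y = L y * g) : g e = e := by sorry

/-! ### Ten.lean: (10) -/

/-- (10a): `c'` commutes with `c*` -/
theorem ten_com (h : AL G L J e) {x : Q} {c : Perm Q} (o : KX G L J e x c) :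
    pr L x c * sr L x c = sr L x c * pr L x c := by sorry

/-- (10b): `d = lam^-1 c lam c^-1` is in `K_x` (`lam = L_x^2`) -/
theorem ten_d (h : AL G L J e) {x : Q} {c : Perm Q} (o : KX G L J e x c) :
    KX G L J e x (pr L x (pr L x c) * c⁻¹) := by sorry

/-- (10c): `z_y` inverts `d` if `k(y,x) = 1` -/
theorem ten_inv (h : AL G L J e) {x : Q} {c : Perm Q} (o : KX G L J e x c) {y : Q}
    (hy : Iv J e y) (hk : kk L J y x = 1) :
    KX G L J e y (pr L x (pr L x c) * c⁻¹) := by sorry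

/-- (10d): `d` commutes with `w d w` for all `w = z_s` -/
theorem ten_w (h : AL G L J e) {x : Q} {c : Perm Q} (o : KX G L J e x c) {s : Q}
    (hs : Iv J e s) :
    (pr L x (pr L x c) * c⁻¹) * (zz L J s * (pr L x (pr L x c) * c⁻¹) * zz L J s) =
      (zz L J s * (pr L x (pr L x c) * c⁻¹) * zz L J s) * (pr L x (pr L x c) * c⁻¹) := by sorry

/-- (10e): `L_x^2` commutes with `c` -/
theorem ten_lam [Finite Q] (h : AL G L J e) (hcardQ : 2 ∣ Nat.card Q) {x : Q} {c : Perm Q}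
    (o : KX G L J e x c) : L x * L x * c = c * (L x * L x) := by sorry

/-! ### Exi.lean -/

/-- existence of a nontrivial element of some `K_x` -/
theorem exists_KX [Finite Q] (h : AL G L J e) (hcardQ : 2 ∣ Nat.card Q) :
    ∃ (x : Q) (c : Perm Q), c ≠ 1 ∧ KX G L J e x c := by sorry

/-! ### Mai.lean -/

/-- THE THEOREM -/
theorem assoc_of_even [Finite Q] (h : AL G L J e) (hcardQ : 2 ∣ Nat.card Q) : Assoc L := by sorry

end AL

/-! ### Alg.lean: pure group theory of (2), (3) -/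

/-- (3): `w` of odd order, commuting with `D w D` and `D' w D'`, `D w D' w^-1 = w^-1 D' w D`,
`w D' w^-1 D` of odd order: `D' = D` -/
theorem alg_three {M : Type*} [Group M] {w D D' : M} (hD : D * D = 1) (hD' : D' * D' = 1)
    {n : ℕ} (hn : Odd n) (hw : w ^ n = 1) (h1 : w * (D * w * D) = (D * w * D) * w)
    (h2 : w * (D' * w * D') = (D' * w * D') * w)
    (h3 : D * w * D' * w⁻¹ = w⁻¹ * D' * w * D) {m : ℕ} (hm : Odd m)
    (h4 : (w * D' * w⁻¹ * D) ^ m = 1) : D' = D := by sorry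

end ALoop
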