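import Pool.Agent.H98.FT.Bas

/-!
Step (0): the inner mapping `k = L_(cx)^-1 L_x L_s`.
-/

set_option autoImplicit false

namespace ALoop

open Equiv

variable {Q : Type*} {G : Subgroup (Perm Q)} {L : Q → Perm Q} {J : Perm Q} {e : Q}

namespace AL

/-- (0): `k = L_(cx)^-1 L_x L_s` -/
theorem zero_k (h : AL G L J e) {x : Q} {c : Perm Q} (o : KX G L J e x c) :
    ∃ k : Perm Q, k ∈ Inn G e ∧ k x = x ∧ k (sp L x c) = sp L x c ∧
    k * c = c * k ∧ k * pr L x c = pr L x c * k ∧
    L (sp L x c) = pr L x c * c⁻¹ * k ∧ rt L J (sp L x c) = pr L x c * c * k := by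
  obtain ⟨-, hprD, -, -⟩ := h.b_pr o
  obtain ⟨⟨hJcx, -⟩, hDcx, hLcx, -⟩ := h.b_cx o
  obtain ⟨-, -, hzs, hLxs, -, hLscx⟩ := h.b_sp o
  obtain ⟨hr1, hr2, hzI, hzz, -, -, hzJ⟩ := h.b_zz o.Iv
  obtain ⟨n, hn, hcn⟩ := o.odd
  have hJx : J x = x := o.Iv.1
  have hDD := h.D_sq x
  have hDi : (D L J x)⁻¹ = D L J x := inv_eq_of_mul_eq_one_left hDD
  set s := sp L x c with hs
  set k := (L (c x))⁻¹ * L x * L s with hk
  have hkG : k ∈ G := G.mul_mem (G.mul_mem (G.inv_mem (h.memL _)) (h.memL _)) (h.memL _)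
  have hke : k e = e := by
    rw [hk, Perm.mul_apply, Perm.mul_apply, h.Le, hLxs, Perm.inv_eq_iff_eq, h.Le]
  have hkI : k ∈ Inn G e := ⟨hkG, hke⟩
  have hRa : ∀ a, (rt L J x) a = L a x := fun a => h.R_apply a x
  have hLR : L x * rt L J x = rt L J x * L x := by
    calc L x * rt L J x = L x * (zz L J x * L x) := by rw [hr1]
      _ = (L x * zz L J x) * L x := by group
      _ = rt L J x * L x := by rw [← hr2]
  have hkx : k x = x := by
    rw [hk, Perm.mul_apply, Perm.mul_apply, Perm.inv_eq_iff_eq, ← hRa s, ← Perm.mul_apply, hLR,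
      Perm.mul_apply, hLxs, hRa]
  have hkcx : k (c x) = c x := by
    rw [hk, Perm.mul_apply, Perm.mul_apply, Perm.inv_eq_iff_eq, hLscx, h.LxLx hJx,
      h.LxLx hJcx]
  have hks : k s = s := by
    have h1 := h.aut hkG hke x s
    rw [hLxs, hkcx, hkx] at h1
    apply (L x).injective
    rw [← h1, hLxs]
  have hkD : k * D L J x = D L J x * k := (h.D_cent hkG x).2 hkx
  have hkDc : k * D L J (c x) = D L J (c x) * k := (h.D_cent hkG (c x)).2 hkcx
  have hkc : k * c = c * k := by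
    refine (comm_of_sq hn hcn ?_).symm
    rw [hDcx] at hkDc
    have h1 : (c * c * k) * D L J x = (k * (c * c)) * D L J x := by
      calc (c * c * k) * D L J x = c * c * (k * D L J x) := by group
        _ = c * c * (D L J x * k) := by rw [hkD]
        _ = c * c * D L J x * k := by group
        _ = k * (c * c * D L J x) := hkDc.symm
        _ = (k * (c * c)) * D L J x := by group
    exact mul_right_cancel h1
  have hkL : k * L x = L x * k := h.comL hkG hke hkx
  have hkL' : k * (L x)⁻¹ = (L x)⁻¹ * k := by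
    calc k * (L x)⁻¹ = (L x)⁻¹ * (L x * k) * (L x)⁻¹ := by group
      _ = (L x)⁻¹ * (k * L x) * (L x)⁻¹ := by rw [hkL]
      _ = (L x)⁻¹ * k := by group
  have hkpr : k * pr L x c = pr L x c * k := by
    unfold pr
    calc k * ((L x)⁻¹ * c * L x) = (k * (L x)⁻¹) * c * L x := by group
      _ = (L x)⁻¹ * (k * c) * L x := by rw [hkL']; group
      _ = (L x)⁻¹ * c * (k * L x) := by rw [hkc]; group
      _ = (L x)⁻¹ * c * L x * k := by rw [hkL]; group
  have hLs : L s = pr L x c * c⁻¹ * k := by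
    calc L s = (L x)⁻¹ * L (c x) * ((L (c x))⁻¹ * L x * L s) := by group
      _ = (L x)⁻¹ * (L x * (pr L x c * c⁻¹)) * k := by rw [← hk, hLcx]
      _ = pr L x c * c⁻¹ * k := by group
  refine ⟨k, hkI, hkx, hks, hkc, hkpr, hLs, ?_⟩
  have hzi : (zz L J x)⁻¹ = zz L J x := inv_eq_of_mul_eq_one_left hzz
  have hJz : J * zz L J x = D L J x := by
    rw [← hzJ]
    show D L J x * J * J = D L J x
    rw [mul_assoc, h.JJ1, mul_one]
  have hzJ2 : zz L J x * J = D L J x := by rw [hzJ, hJz]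
  have hLJs : L (J s) = zz L J x * L s * zz L J x := by
    rw [← hzs, ← h.equi _ hzI.1 hzI.2, hzi]
  have hDc : D L J x * c⁻¹ * D L J x = c := by
    calc D L J x * c⁻¹ * D L J x = ((D L J x)⁻¹ * c * (D L J x)⁻¹)⁻¹ := by group
      _ = (D L J x * c * D L J x)⁻¹ := by rw [hDi]
      _ = c := by rw [o.inv]; group
  calc rt L J s = J * L (J s) * J := rfl
    _ = (J * zz L J x) * L s * (zz L J x * J) := by rw [hLJs]; group
    _ = D L J x * (pr L x c * c⁻¹ * k) * D L J x := by rw [hJz, hzJ2, hLs]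
    _ = (D L J x * pr L x c) * c⁻¹ * (k * D L J x) := by group
    _ = pr L x c * (D L J x * c⁻¹ * D L J x) * k := by rw [← hprD, hkD]; group
    _ = pr L x c * c * k := by rw [hDc]

end AL

end ALoop
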